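import Mathlib

open Complex Filter Topology Set

namespace Pool.Agent.Helper935.EX

/-! ### the function `sin z / z` -/

/-- `sin z / z` -/
noncomputable def sc (z : ℂ) : ℂ := dslope Complex.sin 0 z

lemma sc_zero : sc 0 = 1 := by
  unfold sc; rw [dslope_same, Complex.deriv_sin, Complex.cos_zero]

lemma sc_of_ne {z : ℂ} (hz : z ≠ 0) : sc z = Complex.sin z / z := by
  unfold sc
  rw [dslope_of_ne _ hz, slope_def_field, Complex.sin_zero, sub_zero, sub_zero]

lemma mul_sc (z : ℂ) : z * sc z = Complex.sin z := by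
  by_cases hz : z = 0
  · subst hz; simp
  · rw [sc_of_ne hz]; field_simp

lemma sc_neg (z : ℂ) : sc (-z) = sc z := by
  by_cases hz : z = 0
  · subst hz; simp
  · rw [sc_of_ne hz, sc_of_ne (neg_ne_zero.2 hz), Complex.sin_neg, neg_div_neg_eq]

lemma differentiable_sc : Differentiable ℂ sc := by
  have h : DifferentiableOn ℂ (dslope Complex.sin 0) Set.univ :=
    (Complex.differentiableOn_dslope (c := 0) Filter.univ_mem).2 Complex.differentiable_sin.differentiableOn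
  exact differentiableOn_univ.1 h

lemma norm_cexp_I (z : ℂ) : ‖Complex.exp (z * I)‖ = Real.exp (-z.im) := by
  rw [Complex.norm_exp]; congr 1; simp

lemma norm_sin_le (z : ℂ) : ‖Complex.sin z‖ ≤ Real.exp |z.im| := by
  unfold Complex.sin
  have h1 : ‖Complex.exp (-z * I)‖ ≤ Real.exp |z.im| := by
    rw [norm_cexp_I]; simpa using le_abs_self z.im
  have h2 : ‖Complex.exp (z * I)‖ ≤ Real.exp |z.im| := by
    rw [norm_cexp_I]; simpa using neg_le_abs z.im
  rw [norm_div, norm_mul, Complex.norm_I, mul_one]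
  have h3 := norm_sub_le (Complex.exp (-z * I)) (Complex.exp (z * I))
  have h4 : ‖(2 : ℂ)‖ = 2 := by norm_num
  rw [h4, div_le_iff₀ (by norm_num)]
  linarith

lemma norm_cos_le (z : ℂ) : ‖Complex.cos z‖ ≤ Real.exp |z.im| := by
  unfold Complex.cos
  have h1 : ‖Complex.exp (-z * I)‖ ≤ Real.exp |z.im| := by
    rw [norm_cexp_I]; simpa using le_abs_self z.im
  have h2 : ‖Complex.exp (z * I)‖ ≤ Real.exp |z.im| := by
    rw [norm_cexp_I]; simpa using neg_le_abs z.im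
  rw [norm_div]
  have h3 := norm_add_le (Complex.exp (z * I)) (Complex.exp (-z * I))
  have h4 : ‖(2 : ℂ)‖ = 2 := by norm_num
  rw [h4, div_le_iff₀ (by norm_num)]
  linarith

lemma norm_sin_le_mul (z : ℂ) : ‖Complex.sin z‖ ≤ Real.exp |z.im| * ‖z‖ := by
  have hconv : Convex ℝ {w : ℂ | |w.im| ≤ |z.im|} := by
    have : {w : ℂ | |w.im| ≤ |z.im|} = Complex.imCLM ⁻¹' (Set.Icc (-|z.im|) |z.im|) := by
      ext w; simp [abs_le]
    rw [this]
    exact (convex_Icc _ _).is_linear_preimage Complex.imCLM.isBoundedLinearMap.toIsLinearMap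
  have h := hconv.norm_image_sub_le_of_norm_deriv_le (f := Complex.sin) (C := Real.exp |z.im|) (x := 0) (y := z)
    (fun w _ => Complex.differentiable_sin w)
    (fun w hw => by
      rw [Complex.deriv_sin]
      exact (norm_cos_le w).trans (Real.exp_le_exp.2 hw))
    (by simp) (by simp)
  simpa using h

lemma norm_sc_le (z : ℂ) : ‖sc z‖ ≤ Real.exp |z.im| := by
  by_cases hz : z = 0
  · subst hz; rw [sc_zero]; simp
  · rw [sc_of_ne hz, norm_div, div_le_iff₀ (norm_pos_iff.2 hz)]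
    exact norm_sin_le_mul z

lemma norm_sc_mul_le (z : ℂ) : ‖sc z‖ * ‖z‖ ≤ Real.exp |z.im| := by
  rw [← norm_mul, mul_comm, mul_sc]; exact norm_sin_le z

/-! ### a square root and even entire functions -/

/-- a square root -/
noncomputable def rt (s : ℂ) : ℂ := s ^ (((2 : ℕ) : ℂ)⁻¹)

lemma rt_sq (s : ℂ) : rt s ^ 2 = s := Complex.cpow_nat_inv_pow s (by norm_num)

lemma norm_rt_sq (s : ℂ) : ‖rt s‖ ^ 2 = ‖s‖ := by rw [← norm_pow, rt_sq]

lemma even_rt {g : ℂ → ℂ} (he : ∀ z, g (-z) = g z) {s w : ℂ} (h : w ^ 2 = s) : g (rt s) = g w := by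
  have h1 : rt s ^ 2 = w ^ 2 := by rw [rt_sq, h]
  rcases sq_eq_sq_iff_eq_or_eq_neg.1 h1 with h2 | h2
  · rw [h2]
  · rw [h2, he]

lemma differentiableAt_rt {s : ℂ} (hs : s ∈ slitPlane) : DifferentiableAt ℂ rt s := by
  unfold rt
  exact (differentiableAt_id).cpow (differentiableAt_const _) hs

lemma continuousAt_rt_zero : ContinuousAt rt 0 := by
  have h0 : rt 0 = 0 := by
    have := rt_sq 0
    exact pow_eq_zero_iff (by norm_num) |>.1 this
  rw [ContinuousAt, h0, tendsto_zero_iff_norm_tendsto_zero]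
  have h1 : ∀ s : ℂ, ‖rt s‖ = Real.sqrt ‖s‖ := by
    intro s
    rw [← norm_rt_sq s, Real.sqrt_sq (norm_nonneg _)]
  simp only [h1]
  have h2 : Continuous fun s : ℂ => Real.sqrt ‖s‖ := by fun_prop
  have := h2.tendsto 0
  simpa using this

theorem differentiable_even_rt {g : ℂ → ℂ} (hg : Differentiable ℂ g) (he : ∀ z, g (-z) = g z) :
    Differentiable ℂ (fun s => g (rt s)) := by
  have key : ∀ s₀ : ℂ, s₀ ≠ 0 → DifferentiableAt ℂ (fun s => g (rt s)) s₀ := by
    intro s₀ hs₀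
    have h1 : (fun s => g (rt s)) = fun s => g (rt s₀ * rt (s / s₀)) := by
      funext s
      apply even_rt he
      rw [mul_pow, rt_sq, rt_sq]; field_simp
    rw [h1]
    apply (hg _).comp
    apply DifferentiableAt.const_mul
    have h2 : DifferentiableAt ℂ rt (s₀ / s₀) := by
      rw [div_self hs₀]; exact differentiableAt_rt one_mem_slitPlane
    exact h2.comp s₀ (f := fun s => s / s₀) (differentiableAt_id.div_const _)
  intro s₀
  by_cases hs₀ : s₀ = 0
  · subst hs₀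
    apply AnalyticAt.differentiableAt
    apply Complex.analyticAt_of_differentiable_on_punctured_nhds_of_continuousAt
    · filter_upwards [self_mem_nhdsWithin] with z hz
      exact key z hz
    · have h0 : rt 0 = 0 := pow_eq_zero_iff (by norm_num) |>.1 (rt_sq 0)
      exact ContinuousAt.comp (x := (0 : ℂ)) (by rw [h0]; exact hg.continuous.continuousAt) continuousAt_rt_zero
  · exact key s₀ hs₀

/-- the derivative identity `2 w G'(w^2) = g'(w)` for `G(s) = g(√s)` -/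
lemma deriv_even_rt {g : ℂ → ℂ} (hg : Differentiable ℂ g) (he : ∀ z, g (-z) = g z) (w : ℂ) :
    deriv (fun s => g (rt s)) (w ^ 2) * (2 * w) = deriv g w := by
  have h1 : g = fun w => (fun s => g (rt s)) (w ^ 2) := by
    funext w; exact (even_rt he rfl).symm
  have h2 : HasDerivAt (fun w => (fun s => g (rt s)) (w ^ 2)) (deriv (fun s => g (rt s)) (w ^ 2) * (2 * w)) w := by
    have h3 := ((differentiable_even_rt hg he) (w ^ 2)).hasDerivAt
    have h4 : HasDerivAt (fun w : ℂ => w ^ 2) (2 * w) w := by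
      simpa using hasDerivAt_pow 2 w
    exact HasDerivAt.comp (h₂ := fun s => g (rt s)) (h := fun w : ℂ => w ^ 2) w h3 h4
  have h5 : deriv g w = deriv (fun w => (fun s => g (rt s)) (w ^ 2)) w := by rw [← h1]
  rw [h5]; exact h2.deriv.symm

/-- the modified function `z ↦ g(√(z^2 + τ))` -/
noncomputable def lft (g : ℂ → ℂ) (τ : ℂ) (z : ℂ) : ℂ := g (rt (z ^ 2 + τ))

lemma lft_eq {g : ℂ → ℂ} (he : ∀ z, g (-z) = g z) {τ z w : ℂ} (h : w ^ 2 = z ^ 2 + τ) : lft g τ z = g w :=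
  even_rt he h

lemma differentiable_lft {g : ℂ → ℂ} (hg : Differentiable ℂ g) (he : ∀ z, g (-z) = g z) (τ : ℂ) :
    Differentiable ℂ (lft g τ) :=
  (differentiable_even_rt hg he).comp (by fun_prop : Differentiable ℂ fun z : ℂ => z ^ 2 + τ)

lemma lft_neg (g : ℂ → ℂ) (τ z : ℂ) : lft g τ (-z) = lft g τ z := by
  unfold lft; rw [neg_sq]

lemma deriv_lft {g : ℂ → ℂ} (hg : Differentiable ℂ g) (he : ∀ z, g (-z) = g z) (τ z : ℂ) :
    deriv (lft g τ) z = deriv (fun s => g (rt s)) (z ^ 2 + τ) * (2 * z) := by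
  have h3 := ((differentiable_even_rt hg he) (z ^ 2 + τ)).hasDerivAt
  have h4 : HasDerivAt (fun w : ℂ => w ^ 2 + τ) (2 * z) z := by
    simpa using (hasDerivAt_pow 2 z).add_const τ
  exact (HasDerivAt.comp (h₂ := fun s => g (rt s)) (h := fun w : ℂ => w ^ 2 + τ) z h3 h4).deriv

lemma deriv2_lft_zero {g : ℂ → ℂ} (hg : Differentiable ℂ g) (he : ∀ z, g (-z) = g z) (τ : ℂ) :
    deriv (deriv (lft g τ)) 0 = 2 * deriv (fun s => g (rt s)) τ := by
  have h1 : deriv (lft g τ) = fun z => deriv (fun s => g (rt s)) (z ^ 2 + τ) * (2 * z) :=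
    funext (deriv_lft hg he τ)
  rw [h1]
  have hG : Differentiable ℂ (deriv (fun s => g (rt s))) := by
    have := (differentiable_even_rt hg he).contDiff (n := 2)
    exact ((contDiff_succ_iff_deriv (n := 1)).1 this).2.2.differentiable (by norm_num)
  have h2 : HasDerivAt (fun z : ℂ => deriv (fun s => g (rt s)) (z ^ 2 + τ))
      (deriv (deriv (fun s => g (rt s))) ((0 : ℂ) ^ 2 + τ) * (2 * 0)) 0 := by
    have h4 : HasDerivAt (fun w : ℂ => w ^ 2 + τ) (2 * 0) 0 := by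
      simpa using (hasDerivAt_pow 2 (0 : ℂ)).add_const τ
    exact HasDerivAt.comp (h₂ := deriv (fun s => g (rt s))) (h := fun w : ℂ => w ^ 2 + τ) (0 : ℂ)
      (hG _).hasDerivAt h4
  have h3 : HasDerivAt (fun z : ℂ => 2 * z) (2 * 1) 0 := (hasDerivAt_id (0 : ℂ)).const_mul 2
  have h5 := (h2.mul h3).deriv
  have h6 : (fun z : ℂ => deriv (fun s => g (rt s)) (z ^ 2 + τ) * (2 * z)) =
      (fun z : ℂ => deriv (fun s => g (rt s)) (z ^ 2 + τ)) * fun z => 2 * z := rfl
  rw [h6, h5]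
  have h7 : (0 : ℂ) ^ 2 + τ = τ := by ring
  rw [h7]; ring

lemma norm_rt_add_le (z τ : ℂ) : ‖rt (z ^ 2 + τ)‖ ≤ ‖z‖ + Real.sqrt ‖τ‖ := by
  apply le_of_sq_le_sq _ (by positivity)
  rw [norm_rt_sq]
  calc ‖z ^ 2 + τ‖ ≤ ‖z‖ ^ 2 + ‖τ‖ := by
        refine (norm_add_le _ _).trans ?_
        rw [norm_pow]
    _ = ‖z‖ ^ 2 + Real.sqrt ‖τ‖ ^ 2 := by rw [Real.sq_sqrt (norm_nonneg _)]
    _ ≤ (‖z‖ + Real.sqrt ‖τ‖) ^ 2 := by nlinarith [norm_nonneg z, Real.sqrt_nonneg ‖τ‖]

/-- exponential type at most `σ` -/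
def ExpType (σ : ℝ) (f : ℂ → ℂ) : Prop :=
  ∀ ε : ℝ, 0 < ε → ∃ C : ℝ, ∀ z : ℂ, ‖f z‖ ≤ C * Real.exp ((σ + ε) * ‖z‖)

lemma expType_lft {σ : ℝ} (hσ : 0 ≤ σ) {g : ℂ → ℂ} (hg : ExpType σ g) (τ : ℂ) : ExpType σ (lft g τ) := by
  intro ε hε
  obtain ⟨C, hC⟩ := hg ε hε
  refine ⟨|C| * Real.exp ((σ + ε) * Real.sqrt ‖τ‖), fun z => ?_⟩
  have h1 := hC (rt (z ^ 2 + τ))
  have h2 : C * Real.exp ((σ + ε) * ‖rt (z ^ 2 + τ)‖) ≤ |C| * Real.exp ((σ + ε) * (‖z‖ + Real.sqrt ‖τ‖)) := by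
    apply mul_le_mul (le_abs_self C) _ (Real.exp_pos _).le (abs_nonneg _)
    apply Real.exp_le_exp.2
    exact mul_le_mul_of_nonneg_left (norm_rt_add_le z τ) (by linarith)
  refine (h1.trans h2).trans (le_of_eq ?_)
  rw [mul_add, Real.exp_add]; ring

end Pool.Agent.Helper935.EX
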