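import Pool.Agent.Helper935.EX.PW

open Complex Filter Topology Set MeasureTheory

namespace Pool.Agent.Helper935.EX

/-- the function `κ` -/
noncomputable def kap (c : ℝ) : ℝ := (Real.sin c - c * Real.cos c) / (c ^ 2 * Real.sin c)

/-- the function expanded in a Fourier series -/
noncomputable def th (c t : ℝ) : ℝ := t * Real.sin (c * t) / c - kap c * Real.cos (c * t)

/-- absolute values of the weights -/
noncomputable def nu (c : ℝ) (n : ℤ) : ℝ :=
  2 * (Real.sin c / c) * ((Real.pi * n) ^ 2 / ((Real.pi * n) ^ 2 - c ^ 2) ^ 2)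

lemma J0 {α : ℝ} (hα : α ≠ 0) : ∫ t in (-1 : ℝ)..1, Complex.exp (I * α * t) = 2 * Real.sin α / α := by
  have hα' : (α : ℂ) ≠ 0 := by exact_mod_cast hα
  have h : ∀ t ∈ Set.uIcc (-1 : ℝ) 1, HasDerivAt (fun t : ℝ => Complex.exp (I * α * t) / (I * α))
      (Complex.exp (I * α * t)) t := by
    intro t _
    have h1 : HasDerivAt (fun z : ℂ => Complex.exp (I * α * z) / (I * α))
        (Complex.exp (I * α * t) * (I * α) / (I * α)) (t : ℂ) := by
      have h2 : HasDerivAt (fun z : ℂ => I * α * z) (I * α) (t : ℂ) := by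
        simpa using (hasDerivAt_id (t : ℂ)).const_mul (I * α)
      exact (h2.cexp).div_const _
    rw [mul_div_assoc, div_self (mul_ne_zero I_ne_zero hα'), mul_one] at h1
    exact h1.comp_ofReal
  rw [intervalIntegral.integral_eq_sub_of_hasDerivAt h (Continuous.intervalIntegrable (by fun_prop) _ _)]
  push_cast
  rw [Complex.sin]
  have e1 : I * (α : ℂ) * 1 = α * I := by ring
  have e2 : I * (α : ℂ) * -1 = -α * I := by ring
  rw [e1, e2]
  have hI : I ≠ 0 := I_ne_zero
  field_simp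
  linear_combination (Complex.exp (α * I) - Complex.exp (-(α * I))) * Complex.I_sq

lemma J1 {α : ℝ} (hα : α ≠ 0) : ∫ t in (-1 : ℝ)..1, (t : ℂ) * Complex.exp (I * α * t) =
    2 * Real.cos α / (I * α) + 2 * I * Real.sin α / α ^ 2 := by
  have hα' : (α : ℂ) ≠ 0 := by exact_mod_cast hα
  have hI : I ≠ 0 := I_ne_zero
  have h : ∀ t ∈ Set.uIcc (-1 : ℝ) 1, HasDerivAt
      (fun t : ℝ => ((t : ℂ) / (I * α) + 1 / α ^ 2) * Complex.exp (I * α * t))
      ((t : ℂ) * Complex.exp (I * α * t)) t := by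
    intro t _
    have h1 : HasDerivAt (fun z : ℂ => (z / (I * α) + 1 / α ^ 2) * Complex.exp (I * α * z))
        (1 / (I * α) * Complex.exp (I * α * t) +
          ((t : ℂ) / (I * α) + 1 / α ^ 2) * (Complex.exp (I * α * t) * (I * α))) (t : ℂ) := by
      have h2 : HasDerivAt (fun z : ℂ => I * α * z) (I * α) (t : ℂ) := by
        simpa using (hasDerivAt_id (t : ℂ)).const_mul (I * α)
      have h3 : HasDerivAt (fun z : ℂ => z / (I * α) + 1 / α ^ 2) (1 / (I * α)) (t : ℂ) :=
        ((hasDerivAt_id (t : ℂ)).div_const _).add_const _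
      exact h3.mul h2.cexp
    have e : 1 / (I * α) * Complex.exp (I * α * t) +
          ((t : ℂ) / (I * α) + 1 / α ^ 2) * (Complex.exp (I * α * t) * (I * α)) =
          (t : ℂ) * Complex.exp (I * α * t) := by
      field_simp
      linear_combination Complex.I_sq
    rw [e] at h1
    exact h1.comp_ofReal
  rw [intervalIntegral.integral_eq_sub_of_hasDerivAt h (Continuous.intervalIntegrable (by fun_prop) _ _)]
  push_cast
  rw [Complex.sin, Complex.cos]
  have e1 : I * (α : ℂ) * 1 = α * I := by ring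
  have e2 : I * (α : ℂ) * -1 = -α * I := by ring
  rw [e1, e2]
  field_simp
  linear_combination (I * (Complex.exp (I * α) - Complex.exp (-(I * α)))) * Complex.I_sq

lemma alg1 {c a x y : ℂ} (hc : c ≠ 0) (ha : a ≠ 0) :
    1 / (2 * I * c) * (2 * x / (I * a) + 2 * I * y / a ^ 2) = -(x / (c * a)) + y / (c * a ^ 2) := by
  have hI : I ≠ 0 := I_ne_zero
  field_simp
  linear_combination (a * x) * Complex.I_sq

lemma int_pi_ne {c : ℝ} (hc0 : 0 < c) (hc1 : c < Real.pi) (n : ℤ) : c - n * Real.pi ≠ 0 ∧ c + n * Real.pi ≠ 0 := by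
  have key : ∀ m : ℤ, c ≠ m * Real.pi := by
    intro m h
    rcases le_or_gt m 0 with hm | hm
    · have h1 : (m : ℝ) ≤ 0 := by exact_mod_cast hm
      have h2 : (m : ℝ) * Real.pi ≤ 0 := mul_nonpos_of_nonpos_of_nonneg h1 Real.pi_pos.le
      linarith
    · have h1 : (1 : ℝ) ≤ m := by exact_mod_cast hm
      have h2 : 1 * Real.pi ≤ m * Real.pi := mul_le_mul_of_nonneg_right h1 Real.pi_pos.le
      linarith
  refine ⟨fun h => key n (by linarith), fun h => key (-n) (by push_cast; linarith)⟩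

lemma coeff_int {c : ℝ} (hc0 : 0 < c) (hc1 : c < Real.pi) (n : ℤ) :
    ∫ t in (-1 : ℝ)..1, Complex.exp (-(I * (n * Real.pi) * t)) * (th c t : ℂ) = 2 * ((-1) ^ n * (nu c n : ℂ)) := by
  obtain ⟨hα, hβ⟩ := int_pi_ne hc0 hc1 n
  set α : ℝ := c - n * Real.pi with hαd
  set β : ℝ := c + n * Real.pi with hβd
  have hc' : (c : ℂ) ≠ 0 := by exact_mod_cast hc0.ne'
  have hsin : Real.sin c ≠ 0 := (Real.sin_pos_of_pos_of_lt_pi hc0 hc1).ne'
  have hI : I ≠ 0 := I_ne_zero
  have hpt : ∀ t : ℝ, Complex.exp (-(I * (n * Real.pi) * t)) * (th c t : ℂ) =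
      1 / (2 * I * c) * ((t : ℂ) * Complex.exp (I * α * t)) -
      1 / (2 * I * c) * ((t : ℂ) * Complex.exp (I * (-β : ℝ) * t)) -
      ((kap c : ℂ) / 2 * Complex.exp (I * α * t) + (kap c : ℂ) / 2 * Complex.exp (I * (-β : ℝ) * t)) := by
    intro t
    have e1 : Complex.exp (I * α * t) = Complex.exp (c * t * I) * Complex.exp (-(I * (n * Real.pi) * t)) := by
      rw [← Complex.exp_add, hαd]; congr 1; push_cast; ring
    have e2 : Complex.exp (I * (-β : ℝ) * t) = Complex.exp (-(c * t) * I) * Complex.exp (-(I * (n * Real.pi) * t)) := by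
      rw [← Complex.exp_add, hβd]; congr 1; push_cast; ring
    rw [e1, e2]
    unfold th
    push_cast
    rw [Complex.sin, Complex.cos]
    field_simp
    linear_combination (Complex.exp (-(I * t * c)) - Complex.exp (I * t * c)) * (t : ℂ) * Complex.I_sq
  simp only [hpt]
  have c1 : ∀ γ : ℝ, IntervalIntegrable (fun t : ℝ => 1 / (2 * I * c) * ((t : ℂ) * Complex.exp (I * γ * t)))
      volume (-1) 1 := fun γ => Continuous.intervalIntegrable (by fun_prop) _ _
  have c2 : ∀ γ : ℝ, IntervalIntegrable (fun t : ℝ => (kap c : ℂ) / 2 * Complex.exp (I * γ * t))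
      volume (-1) 1 := fun γ => Continuous.intervalIntegrable (by fun_prop) _ _
  rw [intervalIntegral.integral_sub ((c1 α).sub (c1 (-β))) ((c2 α).add (c2 (-β))),
    intervalIntegral.integral_sub (c1 α) (c1 (-β)), intervalIntegral.integral_add (c2 α) (c2 (-β)),
    intervalIntegral.integral_const_mul, intervalIntegral.integral_const_mul, intervalIntegral.integral_const_mul,
    intervalIntegral.integral_const_mul, J0 hα, J0 (neg_ne_zero.2 hβ), J1 hα, J1 (neg_ne_zero.2 hβ)]
  have s1 : Real.sin α = (-1) ^ n * Real.sin c := Real.sin_sub_int_mul_pi c n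
  have s2 : Real.cos α = (-1) ^ n * Real.cos c := Real.cos_sub_int_mul_pi c n
  have s3 : Real.sin (-β) = -((-1) ^ n * Real.sin c) := by rw [Real.sin_neg, Real.sin_add_int_mul_pi c n]
  have s4 : Real.cos (-β) = (-1) ^ n * Real.cos c := by rw [Real.cos_neg, Real.cos_add_int_mul_pi c n]
  have hα' : (α : ℂ) ≠ 0 := by exact_mod_cast hα
  have hβ' : (((-β : ℝ)) : ℂ) ≠ 0 := by exact_mod_cast neg_ne_zero.2 hβ
  rw [alg1 hc' hα', alg1 hc' hβ']
  have hP : (Real.pi * n) ^ 2 - c ^ 2 ≠ 0 := by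
    have : (Real.pi * n) ^ 2 - c ^ 2 = -(α * β) := by rw [hαd, hβd]; ring
    rw [this]; exact neg_ne_zero.2 (mul_ne_zero hα hβ)
  rw [s1, s2, s3, s4]
  have hreal : -((-1) ^ n * Real.cos c / (c * α)) + (-1) ^ n * Real.sin c / (c * α ^ 2) -
      (-((-1) ^ n * Real.cos c / (c * (-β))) + -((-1) ^ n * Real.sin c) / (c * (-β) ^ 2)) -
      (kap c / 2 * (2 * ((-1) ^ n * Real.sin c) / α) + kap c / 2 * (2 * -((-1) ^ n * Real.sin c) / (-β))) =
      2 * ((-1) ^ n * nu c n) := by
    unfold nu kap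
    have hαβ : (Real.pi * n) ^ 2 - c ^ 2 = -(α * β) := by rw [hαd, hβd]; ring
    rw [hαβ]
    have hn : (n : ℝ) * Real.pi = (β - α) / 2 := by rw [hαd, hβd]; ring
    have hn' : Real.pi * (n : ℝ) = (β - α) / 2 := by rw [mul_comm]; exact hn
    have hcc : c = (α + β) / 2 := by rw [hαd, hβd]; ring
    rw [hn']
    field_simp
    generalize Real.sin c = S at *
    generalize Real.cos c = C at *
    rw [hcc]
    ring
  have h := congrArg Complex.ofReal hreal
  push_cast at h ⊢
  linear_combination h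

instance fact_two : Fact ((0 : ℝ) < 2) := ⟨by norm_num⟩

lemma th_neg (c t : ℝ) : th c (-t) = th c t := by
  unfold th
  rw [mul_neg, Real.sin_neg, Real.cos_neg]; ring

lemma continuous_th (c : ℝ) : Continuous (th c) := by
  unfold th; fun_prop

lemma nu_nonneg {c : ℝ} (hc0 : 0 < c) (hc1 : c < Real.pi) (n : ℤ) : 0 ≤ nu c n := by
  have hsin : 0 < Real.sin c := Real.sin_pos_of_pos_of_lt_pi hc0 hc1
  unfold nu; positivity

lemma nu_zero (c : ℝ) : nu c 0 = 0 := by unfold nu; simp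

lemma nu_summable {c : ℝ} (hc0 : 0 < c) (hc1 : c < Real.pi) : Summable (nu c) := by
  have hsin : 0 < Real.sin c := Real.sin_pos_of_pos_of_lt_pi hc0 hc1
  have hd : 0 < Real.pi ^ 2 - c ^ 2 := by nlinarith
  have hs : Summable (fun n : ℤ => (2 * (Real.sin c / c) * (Real.pi ^ 2 / (Real.pi ^ 2 - c ^ 2) ^ 2)) *
      (1 / (n : ℝ) ^ 2)) := (Real.summable_one_div_int_pow.2 (by norm_num : 1 < 2)).mul_left _
  apply Summable.of_nonneg_of_le (nu_nonneg hc0 hc1) _ hs
  intro n
  by_cases hn : n = 0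
  · subst hn; rw [nu_zero]; simp
  · unfold nu
    rw [mul_assoc (2 * (Real.sin c / c)) (Real.pi ^ 2 / (Real.pi ^ 2 - c ^ 2) ^ 2)]
    apply mul_le_mul_of_nonneg_left _ (by positivity)
    have hn1 : (1 : ℝ) ≤ (n : ℝ) ^ 2 := by
      have : 1 ≤ n ^ 2 := by
        have := Int.one_le_abs hn
        nlinarith [sq_abs n]
      exact_mod_cast this
    have h1 : (Real.pi ^ 2 - c ^ 2) * (n : ℝ) ^ 2 ≤ (Real.pi * n) ^ 2 - c ^ 2 := by nlinarith [sq_nonneg c]
    have h2 : ((Real.pi ^ 2 - c ^ 2) * (n : ℝ) ^ 2) ^ 2 ≤ ((Real.pi * n) ^ 2 - c ^ 2) ^ 2 :=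
      pow_le_pow_left₀ (by positivity) h1 2
    have hn0 : (n : ℝ) ≠ 0 := by exact_mod_cast hn
    calc (Real.pi * n) ^ 2 / ((Real.pi * n) ^ 2 - c ^ 2) ^ 2
        ≤ (Real.pi * n) ^ 2 / ((Real.pi ^ 2 - c ^ 2) * (n : ℝ) ^ 2) ^ 2 := by
          apply div_le_div_of_nonneg_left (by positivity) (by positivity) h2
      _ = _ := by field_simp

lemma series_aux {c : ℝ} (hc0 : 0 < c) (hc1 : c < Real.pi) {t : ℝ} (ht : t ∈ Set.Ico (-1 : ℝ) 1) :
    HasSum (fun n : ℤ => ((-1) ^ n * (nu c n : ℂ)) * Complex.exp (I * (n * Real.pi) * t)) (th c t : ℂ) := by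
  set f : ℝ → ℂ := fun t => (th c t : ℂ) with hf
  have hfc : Continuous f := Complex.continuous_ofReal.comp (continuous_th c)
  have hper : f (-1) = f (-1 + 2) := by
    rw [hf]; beta_reduce
    have : (-1 : ℝ) + 2 = 1 := by norm_num
    rw [this, th_neg]
  set g : C(AddCircle (2 : ℝ), ℂ) := ⟨AddCircle.liftIco 2 (-1) f,
    AddCircle.liftIco_continuous hper hfc.continuousOn⟩ with hg
  have hcoef : ∀ n : ℤ, fourierCoeff g n = (-1) ^ n * (nu c n : ℂ) := by
    intro n
    change fourierCoeff (AddCircle.liftIco 2 (-1) f) n = _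
    rw [fourierCoeff_liftIco_eq, fourierCoeffOn_eq_integral]
    have e : ∀ x : ℝ, fourier (-n) (x : AddCircle ((-1 : ℝ) + 2 - -1)) • f x =
        Complex.exp (-(I * (n * Real.pi) * x)) * (th c x : ℂ) := by
      intro x
      rw [fourier_coe_apply, smul_eq_mul]
      congr 2
      push_cast; ring
    simp only [e]
    have h1 : (-1 : ℝ) + 2 = 1 := by norm_num
    rw [h1, coeff_int hc0 hc1]
    rw [Complex.real_smul]; push_cast; ring
  have hsum : Summable (fourierCoeff g) := by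
    apply Summable.of_norm
    refine (nu_summable hc0 hc1).congr fun n => ?_
    rw [hcoef, norm_mul, norm_zpow, norm_neg, norm_one, one_zpow, one_mul, Complex.norm_real,
      Real.norm_of_nonneg (nu_nonneg hc0 hc1 n)]
  have h := has_pointwise_sum_fourier_series_of_summable hsum (t : AddCircle (2 : ℝ))
  have hgt : g (t : AddCircle (2 : ℝ)) = th c t := by
    change AddCircle.liftIco 2 (-1) f (t : AddCircle (2 : ℝ)) = _
    rw [AddCircle.liftIco_coe_apply]
    refine ⟨ht.1, ?_⟩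
    have := ht.2; linarith
  rw [hgt] at h
  have hfun : (fun n : ℤ => ((-1) ^ n * (nu c n : ℂ)) * Complex.exp (I * (n * Real.pi) * t)) =
      fun i => fourierCoeff g i • fourier i (t : AddCircle (2 : ℝ)) := by
    funext n
    rw [hcoef, smul_eq_mul, fourier_coe_apply]
    congr 2
    push_cast; ring
  rw [hfun]; exact h

lemma exp_int (n : ℤ) : Complex.exp (I * (n * Real.pi)) = (-1) ^ n := by
  rw [show I * (n * (Real.pi : ℂ)) = n * (Real.pi * I) by ring, Complex.exp_int_mul, Complex.exp_pi_mul_I]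

theorem series {c : ℝ} (hc0 : 0 < c) (hc1 : c < Real.pi) {t : ℝ} (ht : |t| ≤ 1) :
    HasSum (fun n : ℤ => ((-1) ^ n * (nu c n : ℂ)) * Complex.exp (I * (n * Real.pi) * t)) (th c t : ℂ) := by
  rw [abs_le] at ht
  rcases lt_or_eq_of_le ht.2 with h | h
  · exact series_aux hc0 hc1 ⟨ht.1, h⟩
  · subst h
    have h1 := series_aux hc0 hc1 (t := -1) ⟨le_rfl, by norm_num⟩
    rw [th_neg] at h1
    have hfun : (fun n : ℤ => ((-1) ^ n * (nu c n : ℂ)) * Complex.exp (I * (n * Real.pi) * (1 : ℝ))) =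
        fun n : ℤ => ((-1) ^ n * (nu c n : ℂ)) * Complex.exp (I * (n * Real.pi) * (-1 : ℝ)) := by
      funext n
      congr 1
      have e1 : I * (n * (Real.pi : ℂ)) * ((1 : ℝ) : ℂ) = I * (n * Real.pi) := by push_cast; ring
      have e2 : I * (n * (Real.pi : ℂ)) * ((-1 : ℝ) : ℂ) = -(I * (n * Real.pi)) := by push_cast; ring
      rw [e1, e2, Complex.exp_neg, exp_int, ← inv_zpow]
      norm_num
    rw [hfun]; exact h1

lemma nu_sum {c : ℝ} (hc0 : 0 < c) (hc1 : c < Real.pi) : HasSum (nu c) (th c 1) := by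
  have h := series hc0 hc1 (t := 1) (by norm_num)
  have hfun : (fun n : ℤ => ((-1) ^ n * (nu c n : ℂ)) * Complex.exp (I * (n * Real.pi) * (1 : ℝ))) =
      fun n : ℤ => (nu c n : ℂ) := by
    funext n
    have e1 : I * (n * (Real.pi : ℂ)) * ((1 : ℝ) : ℂ) = I * (n * Real.pi) := by push_cast; ring
    rw [e1, exp_int]
    have e2 : ((-1 : ℂ) ^ n) * (-1) ^ n = 1 := by
      rw [← mul_zpow]; norm_num
    linear_combination (nu c n : ℂ) * e2
  rw [hfun] at h
  exact_mod_cast h

end Pool.Agent.Helper935.EX
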