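import Pool.Agent.Helper935.EX.FS

open Complex Filter Topology Set MeasureTheory

namespace Pool.Agent.Helper935.EX

/-- the functional in the `w`-plane -/
noncomputable def As (c : ℝ) (F : ℂ → ℂ) : ℂ :=
  -(deriv F c - deriv F (-c)) / (2 * c) - kap c * ((F c + F (-c)) / 2)

lemma cs_of_zero {g : ℝ → ℂ} (hz : ∀ ξ : ℝ, 1 < |2 * Real.pi * ξ| → g ξ = 0) : HasCompactSupport g := by
  apply HasCompactSupport.intro (isCompact_Icc (a := (-1 : ℝ)) (b := 1))
  intro ξ hξ
  apply hz
  rw [abs_mul, abs_of_pos Real.two_pi_pos]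
  have h1 : 1 < |ξ| := by
    by_contra hcon
    rw [not_lt, abs_le] at hcon
    exact hξ hcon
  have h2 : (1 : ℝ) < 2 * Real.pi := by have := Real.pi_gt_three; linarith
  nlinarith

/-- the interpolation bound for integrable functions of exponential type one -/
theorem As_bound {c : ℝ} (hc0 : 0 < c) (hc1 : c < Real.pi) {φ : ℂ → ℂ} (hφ : Differentiable ℂ φ) {C : ℝ}
    (hb : ∀ x y : ℝ, ‖φ (x + y * I)‖ ≤ C * Real.exp |y| * (1 + x ^ 2)⁻¹) {M : ℝ}
    (hM : ∀ n : ℤ, n ≠ 0 → ‖φ ((Real.pi * n : ℝ) : ℂ)‖ ≤ M) : ‖As c φ‖ ≤ M * th c 1 := by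
  obtain ⟨g, hgc, hgz, hrep⟩ := fourier_rep hφ hb
  have hcs := cs_of_zero hgz
  have hint : ∀ h : ℝ → ℂ, Continuous h → Integrable (fun ξ => g ξ * h ξ) := by
    intro h hh
    apply (hgc.mul hh).integrable_of_hasCompactSupport
    exact hcs.mul_right
  have hc' : (c : ℂ) ≠ 0 := by exact_mod_cast hc0.ne'
  -- the derivative
  have hD : ∀ x : ℝ, deriv φ x = ∫ ξ : ℝ, g ξ * ((2 * Real.pi * ξ * I) * Complex.exp (2 * Real.pi * ξ * x * I)) := by
    intro x
    have h1 : HasDerivAt (fun x : ℝ => φ x) (deriv φ x) x := (hφ x).hasDerivAt.comp_ofReal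
    have h2 : HasDerivAt (fun x : ℝ => ∫ ξ : ℝ, g ξ * Complex.exp (2 * Real.pi * ξ * x * I))
        (∫ ξ : ℝ, g ξ * ((2 * Real.pi * ξ * I) * Complex.exp (2 * Real.pi * ξ * x * I))) x := by
      refine (hasDerivAt_integral_of_dominated_loc_of_deriv_le (s := Set.univ)
        (bound := fun ξ : ℝ => ‖g ξ * (2 * Real.pi * ξ * I)‖)
        (F' := fun (x : ℝ) (ξ : ℝ) => g ξ * ((2 * Real.pi * ξ * I) * Complex.exp (2 * Real.pi * ξ * x * I)))
        Filter.univ_mem ?_ ?_ ?_ ?_ ?_ ?_).2
      · refine Filter.Eventually.of_forall fun y => ?_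
        exact (hgc.mul (by fun_prop)).aestronglyMeasurable
      · exact hint _ (by fun_prop)
      · exact (hgc.mul (by fun_prop)).aestronglyMeasurable
      · refine Filter.Eventually.of_forall fun ξ y _ => ?_
        rw [← mul_assoc, norm_mul, Complex.norm_exp]
        have : (2 * Real.pi * (ξ : ℂ) * (y : ℂ) * I).re = 0 := by simp
        rw [this, Real.exp_zero, mul_one]
      · exact (hint _ (by fun_prop)).norm
      · refine Filter.Eventually.of_forall fun ξ y _ => ?_
        have h3 : HasDerivAt (fun z : ℂ => 2 * Real.pi * ξ * z * I) (2 * Real.pi * ξ * I) (y : ℂ) := by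
          have := ((hasDerivAt_id (y : ℂ)).const_mul (2 * (Real.pi : ℂ) * ξ)).mul_const I
          simpa using this
        have h4 := (h3.cexp.const_mul (g ξ)).comp_ofReal
        refine h4.congr_deriv ?_
        beta_reduce
        rw [mul_comm (Complex.exp _)]
    have h3 : (fun x : ℝ => φ x) = fun x : ℝ => ∫ ξ : ℝ, g ξ * Complex.exp (2 * Real.pi * ξ * x * I) := by
      funext y; exact hrep y
    rw [h3] at h1
    exact h1.unique h2
  -- the functional as an integral
  have hA : As c φ = ∫ ξ : ℝ, g ξ * (th c (2 * Real.pi * ξ) : ℂ) := by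
    unfold As
    have e1 := hD c
    have e2 := hD (-c)
    have e3 := hrep c
    have e4 := hrep (-c)
    rw [Complex.ofReal_neg] at e2 e4
    rw [e1, e2, e3, e4]
    rw [← integral_sub (hint _ (by fun_prop)) (hint _ (by fun_prop)),
      ← integral_add (hint _ (by fun_prop)) (hint _ (by fun_prop))]
    have e5 : ∀ X Y : ℂ, -X / (2 * c) - kap c * (Y / 2) = (-1 / (2 * c)) * X + (-(kap c : ℂ) / 2) * Y := by
      intro X Y; ring
    rw [e5, ← integral_const_mul, ← integral_const_mul, ← integral_add]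
    · apply integral_congr_ae
      refine Filter.Eventually.of_forall fun ξ => ?_
      beta_reduce
      have e6 : Complex.exp (2 * Real.pi * ξ * -(c : ℂ) * I) = Complex.exp (-(c * (2 * Real.pi * ξ)) * I) := by
        congr 1; ring
      have e7 : Complex.exp (2 * Real.pi * ξ * (c : ℂ) * I) = Complex.exp ((c * (2 * Real.pi * ξ)) * I) := by
        congr 1; ring
      rw [e6, e7]
      unfold th
      push_cast
      rw [Complex.sin, Complex.cos]
      generalize Complex.exp (-(c * (2 * Real.pi * ξ)) * I) = U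
      generalize Complex.exp ((c * (2 * Real.pi * ξ)) * I) = V
      field_simp
      ring
    · exact ((hint _ (by fun_prop)).sub (hint _ (by fun_prop))).const_mul _
    · exact ((hint _ (by fun_prop)).add (hint _ (by fun_prop))).const_mul _
  -- the series
  have hS : HasSum (fun n : ℤ => ((-1) ^ n * (nu c n : ℂ)) * φ ((Real.pi * n : ℝ) : ℂ)) (As c φ) := by
    have h1 := hasSum_integral_of_summable_integral_norm (μ := (volume : Measure ℝ))
      (F := fun (n : ℤ) (ξ : ℝ) => g ξ * (((-1) ^ n * (nu c n : ℂ)) * Complex.exp (I * (n * Real.pi) * (2 * Real.pi * ξ))))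
      (fun n => hint _ (by fun_prop))
      (by
        have h2 : ∀ n : ℤ, (∫ ξ : ℝ, ‖g ξ * (((-1) ^ n * (nu c n : ℂ)) * Complex.exp (I * (n * Real.pi) * (2 * Real.pi * ξ)))‖) =
            nu c n * ∫ ξ : ℝ, ‖g ξ‖ := by
          intro n
          rw [← integral_const_mul]
          apply integral_congr_ae
          refine Filter.Eventually.of_forall fun ξ => ?_
          beta_reduce
          rw [norm_mul, norm_mul, norm_mul, norm_zpow, norm_neg, norm_one, one_zpow, one_mul, Complex.norm_real,
            Real.norm_of_nonneg (nu_nonneg hc0 hc1 n), Complex.norm_exp]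
          have : (I * (n * (Real.pi : ℂ)) * (2 * Real.pi * (ξ : ℂ))).re = 0 := by simp
          rw [this, Real.exp_zero, mul_one]; ring
        simp only [h2]
        exact (nu_summable hc0 hc1).mul_right _)
    have h3 : (fun n : ℤ => ∫ ξ : ℝ, g ξ * (((-1) ^ n * (nu c n : ℂ)) * Complex.exp (I * (n * Real.pi) * (2 * Real.pi * ξ)))) =
        fun n : ℤ => ((-1) ^ n * (nu c n : ℂ)) * φ ((Real.pi * n : ℝ) : ℂ) := by
      funext n
      rw [hrep, ← integral_const_mul]
      apply integral_congr_ae
      refine Filter.Eventually.of_forall fun ξ => ?_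
      beta_reduce
      have : Complex.exp (I * (n * Real.pi) * (2 * Real.pi * ξ)) =
          Complex.exp (2 * Real.pi * ξ * ((Real.pi * n : ℝ) : ℂ) * I) := by
        congr 1; push_cast; ring
      rw [this]; ring
    have h4 : (∫ ξ : ℝ, ∑' n : ℤ, g ξ * (((-1) ^ n * (nu c n : ℂ)) * Complex.exp (I * (n * Real.pi) * (2 * Real.pi * ξ)))) =
        As c φ := by
      rw [hA]
      apply integral_congr_ae
      refine Filter.Eventually.of_forall fun ξ => ?_
      beta_reduce
      by_cases hξ : 1 < |2 * Real.pi * ξ|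
      · rw [hgz ξ hξ]; simp
      · rw [tsum_mul_left]
        congr 1
        have h5 := (series hc0 hc1 (not_lt.1 hξ)).tsum_eq
        rw [← h5]
        apply tsum_congr
        intro n
        push_cast
        rfl
    rw [h3, h4] at h1
    exact h1
  have h6 := HasSum.norm_le_of_bounded hS ((nu_sum hc0 hc1).mul_left M) (fun n => by
    rw [norm_mul, norm_mul, norm_zpow, norm_neg, norm_one, one_zpow, one_mul, Complex.norm_real,
      Real.norm_of_nonneg (nu_nonneg hc0 hc1 n)]
    by_cases hn : n = 0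
    · subst hn; rw [nu_zero]; simp
    · rw [mul_comm M]
      exact mul_le_mul_of_nonneg_left (hM n hn) (nu_nonneg hc0 hc1 n))
  exact h6

end Pool.Agent.Helper935.EX
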