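import Pool.Agent.Helper935.EX.Upp

open Complex Filter Topology Set MeasureTheory

namespace Pool.Agent.Helper935.EX

/-! ### the extremal functions -/

lemma cos_even (z : ℂ) : Complex.cos (-z) = Complex.cos z := Complex.cos_neg z

lemma expType_of_le {g : ℂ → ℂ} (h : ∀ z, ‖g z‖ ≤ Real.exp |z.im|) : ExpType 1 g := by
  intro ε hε
  refine ⟨1, fun z => ?_⟩
  rw [one_mul]
  refine (h z).trans (Real.exp_le_exp.2 ?_)
  have h1 := Complex.abs_im_le_norm z
  nlinarith [norm_nonneg z]

lemma ExpType.add {σ : ℝ} {f g : ℂ → ℂ} (hf : ExpType σ f) (hg : ExpType σ g) :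
    ExpType σ (fun z => f z + g z) := by
  intro ε hε
  obtain ⟨C, hC⟩ := hf ε hε
  obtain ⟨D, hD⟩ := hg ε hε
  refine ⟨C + D, fun z => ?_⟩
  rw [add_mul]
  exact (norm_add_le _ _).trans (add_le_add (hC z) (hD z))

lemma ExpType.const_mul {σ : ℝ} {f : ℂ → ℂ} (hf : ExpType σ f) (a : ℂ) : ExpType σ (fun z => a * f z) := by
  intro ε hε
  obtain ⟨C, hC⟩ := hf ε hε
  refine ⟨‖a‖ * C, fun z => ?_⟩
  rw [norm_mul, mul_assoc]
  exact mul_le_mul_of_nonneg_left (hC z) (norm_nonneg _)

/-- the extremal function -/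
noncomputable def fe (c : ℝ) (z : ℂ) : ℂ := lft Complex.cos ((c : ℂ) ^ 2) z + (I * c) * lft sc ((c : ℂ) ^ 2) z

lemma differentiable_fe (c : ℝ) : Differentiable ℂ (fe c) := by
  unfold fe
  exact (differentiable_lft Complex.differentiable_cos cos_even _).add
    ((differentiable_lft differentiable_sc sc_neg _).const_mul _)

lemma expType_fe (c : ℝ) : ExpType 1 (fe c) := by
  unfold fe
  exact (expType_lft zero_le_one (expType_of_le norm_cos_le) _).add
    ((expType_lft zero_le_one (expType_of_le norm_sc_le) _).const_mul _)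

lemma norm_fe_le (c x : ℝ) : ‖fe c x‖ ≤ 1 := by
  set w : ℝ := Real.sqrt (x ^ 2 + c ^ 2) with hw
  have hw2 : w ^ 2 = x ^ 2 + c ^ 2 := Real.sq_sqrt (by positivity)
  have hwc : ((w : ℝ) : ℂ) ^ 2 = (x : ℂ) ^ 2 + (c : ℂ) ^ 2 := by exact_mod_cast hw2
  have e1 : lft Complex.cos ((c : ℂ) ^ 2) x = Complex.cos w := lft_eq cos_even hwc
  have e2 : lft sc ((c : ℂ) ^ 2) x = sc w := lft_eq sc_neg hwc
  unfold fe
  rw [e1, e2]
  by_cases hw0 : w = 0
  · rw [hw0] at hw2 ⊢
    have hc : c = 0 := by nlinarith [sq_nonneg x, sq_nonneg c]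
    rw [hc]; simp
  · have hwc0 : (w : ℂ) ≠ 0 := by exact_mod_cast hw0
    rw [sc_of_ne hwc0]
    have e3 : Complex.cos w + I * c * (Complex.sin w / w) =
        ((Real.cos w : ℝ) : ℂ) + ((c * Real.sin w / w : ℝ) : ℂ) * I := by push_cast; ring
    rw [e3]
    apply le_of_sq_le_sq _ zero_le_one
    rw [Complex.sq_norm, Complex.normSq_add_mul_I]
    have h1 : (c * Real.sin w / w) ^ 2 ≤ Real.sin w ^ 2 := by
      rw [div_pow, mul_pow, div_le_iff₀ (by positivity)]
      have : c ^ 2 ≤ w ^ 2 := by rw [hw2]; nlinarith [sq_nonneg x]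
      nlinarith [sq_nonneg (Real.sin w)]
    have h2 := Real.sin_sq_add_cos_sq w
    linarith

lemma fe_zero (c : ℝ) : fe c 0 = Complex.exp (c * I) := by
  have h : ((c : ℝ) : ℂ) ^ 2 = (0 : ℂ) ^ 2 + (c : ℂ) ^ 2 := by ring
  have e1 : lft Complex.cos ((c : ℂ) ^ 2) 0 = Complex.cos c := lft_eq cos_even h
  have e2 : lft sc ((c : ℂ) ^ 2) 0 = sc c := lft_eq sc_neg h
  unfold fe
  rw [e1, e2, mul_assoc, mul_sc, Complex.exp_mul_I]; ring

lemma deriv_sc (z : ℂ) : z * deriv sc z = Complex.cos z - sc z := by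
  have h1 : HasDerivAt (fun z => z * sc z) (1 * sc z + z * deriv sc z) z :=
    (hasDerivAt_id z).mul (differentiable_sc z).hasDerivAt
  have h2 : (fun z => z * sc z) = Complex.sin := funext mul_sc
  rw [h2] at h1
  have h3 := h1.unique (Complex.hasDerivAt_sin z)
  linear_combination h3

lemma deriv2_fe (c : ℝ) : deriv (deriv (fe c)) 0 =
    2 * deriv (fun s => Complex.cos (rt s)) ((c : ℂ) ^ 2) + (I * c) * (2 * deriv (fun s => sc (rt s)) ((c : ℂ) ^ 2)) := by
  have hd1 := differentiable_lft Complex.differentiable_cos cos_even ((c : ℂ) ^ 2)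
  have hd2 := differentiable_lft differentiable_sc sc_neg ((c : ℂ) ^ 2)
  have h1 : deriv (fe c) = fun z => deriv (lft Complex.cos ((c : ℂ) ^ 2)) z + (I * c) * deriv (lft sc ((c : ℂ) ^ 2)) z := by
    funext z
    exact ((hd1 z).hasDerivAt.add ((hd2 z).hasDerivAt.const_mul (I * c))).deriv
  rw [h1]
  have h2 := (((differentiable_deriv hd1) 0).hasDerivAt.add
    (((differentiable_deriv hd2) 0).hasDerivAt.const_mul (I * c))).deriv
  have h3 : (fun z => deriv (lft Complex.cos ((c : ℂ) ^ 2)) z + (I * c) * deriv (lft sc ((c : ℂ) ^ 2)) z) =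
      (deriv (lft Complex.cos ((c : ℂ) ^ 2)) + fun z => (I * c) * deriv (lft sc ((c : ℂ) ^ 2)) z) := rfl
  rw [h3, h2, deriv2_lft_zero Complex.differentiable_cos cos_even, deriv2_lft_zero differentiable_sc sc_neg]

/-- the curve -/
noncomputable def gam (c : ℝ) : ℂ := ((Real.sinc c ^ 2 : ℝ) : ℂ) - I * (((1 - Real.sinc (2 * c)) / c : ℝ) : ℂ)

lemma fe_value (c : ℝ) (lam : ℂ) : -deriv (deriv (fe c)) 0 + lam * fe c 0 = Complex.exp (c * I) * (lam + gam c) := by
  rw [fe_zero]
  by_cases hc : c = 0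
  · subst hc
    rw [deriv2_fe]
    have h0 : lft Complex.cos 0 = Complex.cos := by
      funext z; exact lft_eq cos_even (by ring)
    have h1 := deriv2_lft_zero Complex.differentiable_cos cos_even 0
    rw [h0] at h1
    have h2 : deriv (deriv Complex.cos) 0 = -1 := by
      have : deriv Complex.cos = fun z => -Complex.sin z := by funext z; exact Complex.deriv_cos
      rw [this]
      have := ((Complex.hasDerivAt_sin 0).neg).deriv
      rw [Complex.cos_zero] at this
      exact this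
    unfold gam
    have e0 : ((0 : ℝ) : ℂ) ^ 2 = 0 := by simp
    rw [e0, ← h1, h2]
    simp
    ring
  · have hc' : (c : ℂ) ≠ 0 := by exact_mod_cast hc
    have d1 := deriv_even_rt Complex.differentiable_cos cos_even (c : ℂ)
    have d2 := deriv_even_rt differentiable_sc sc_neg (c : ℂ)
    have d3 := deriv_sc (c : ℂ)
    rw [Complex.deriv_cos] at d1
    have d1' : 2 * deriv (fun s => Complex.cos (rt s)) ((c : ℂ) ^ 2) = -Complex.sin c / c := by
      field_simp; linear_combination d1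
    have d2' : 2 * deriv (fun s => sc (rt s)) ((c : ℂ) ^ 2) = (Complex.cos c - sc c) / c ^ 2 := by
      field_simp
      linear_combination (c : ℂ) * d2 + d3
    rw [deriv2_fe, d1', d2', sc_of_ne hc']
    have hs1 : Real.sinc c = Real.sin c / c := Real.sinc_of_ne_zero hc
    have hs2 : Real.sinc (2 * c) = Real.sin c * Real.cos c / c := by
      rw [Real.sinc_of_ne_zero (mul_ne_zero two_ne_zero hc), Real.sin_two_mul]; field_simp
    unfold gam
    rw [hs1, hs2, Complex.exp_mul_I]
    push_cast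
    have hsq := Complex.sin_sq_add_cos_sq (c : ℂ)
    generalize Complex.sin (c : ℂ) = s at *
    generalize Complex.cos (c : ℂ) = k at *
    field_simp
    linear_combination (-(I * s)) * hsq + (s * c - s ^ 2 * k) * Complex.I_sq

end Pool.Agent.Helper935.EX
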