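import Pool.Agent.Helper935.EX.Ent

open Complex Filter Topology Set MeasureTheory
open scoped FourierTransform

namespace Pool.Agent.Helper935.EX

lemma norm_exp_neg_mul (a : ℝ) (ζ : ℂ) : ‖Complex.exp (-((a : ℂ) * ζ))‖ = Real.exp (-(a * ζ.re)) := by
  rw [Complex.norm_exp]; congr 1; simp

/-- Phragmén-Lindelöf in the upper half plane, with a loss -/
lemma pl_aux {F : ℂ → ℂ} {M : ℝ} (hF : Differentiable ℂ F) (ht : ExpType 1 F) (hM : ∀ x : ℝ, ‖F x‖ ≤ M)
    {ε : ℝ} (hε : 0 < ε) {ζ : ℂ} (hζ : 0 ≤ ζ.re) : ‖F (I * ζ)‖ ≤ M * Real.exp ((1 + ε) * ζ.re) := by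
  obtain ⟨C, hC⟩ := ht ε hε
  have hC0 : 0 ≤ C := by
    have := (norm_nonneg _).trans (hC 0)
    simpa using this
  set a : ℝ := 1 + ε with ha
  have ha0 : 0 < a := by linarith
  have hb : ∀ ζ : ℂ, ‖F (I * ζ) * Complex.exp (-((a : ℂ) * ζ))‖ ≤
      C * Real.exp (a * ‖ζ‖) * Real.exp (-(a * ζ.re)) := by
    intro ζ
    rw [norm_mul, norm_exp_neg_mul]
    apply mul_le_mul_of_nonneg_right _ (Real.exp_pos _).le
    have := hC (I * ζ)
    rwa [norm_mul, Complex.norm_I, one_mul] at this
  have h := PhragmenLindelof.right_half_plane_of_bounded_on_real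
    (f := fun ζ => F (I * ζ) * Complex.exp (-((a : ℂ) * ζ))) (C := M) (z := ζ) ?_ ?_ ?_ ?_ hζ
  · beta_reduce at h
    rw [norm_mul, norm_exp_neg_mul] at h
    have h2 : 0 < Real.exp (a * ζ.re) := Real.exp_pos _
    rw [Real.exp_neg] at h
    rwa [← div_eq_mul_inv, div_le_iff₀ h2] at h
  · apply Differentiable.diffContOnCl
    exact (hF.comp (by fun_prop)).mul (by fun_prop)
  · refine ⟨1, by norm_num, 2 * a, ?_⟩
    apply Asymptotics.IsBigO.of_bound C
    refine Filter.Eventually.of_forall fun z => ?_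
    refine (hb z).trans ?_
    rw [mul_assoc, ← Real.exp_add, Real.norm_of_nonneg (Real.exp_pos _).le]
    apply mul_le_mul_of_nonneg_left _ hC0
    apply Real.exp_le_exp.2
    rw [Real.rpow_one]
    have h1 : -z.re ≤ ‖z‖ := (neg_le_abs z.re).trans (Complex.abs_re_le_norm z)
    nlinarith
  · apply Filter.isBoundedUnder_of_eventually_le (a := C)
    filter_upwards [eventually_ge_atTop (0 : ℝ)] with x hx
    refine (hb x).trans (le_of_eq ?_)
    rw [Complex.norm_real, Real.norm_of_nonneg hx, Complex.ofReal_re, mul_assoc, ← Real.exp_add]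
    simp
  · intro x
    beta_reduce
    rw [norm_mul, norm_exp_neg_mul]
    have h1 : I * ((x : ℂ) * I) = ((-x : ℝ) : ℂ) := by
      push_cast; linear_combination (x : ℂ) * Complex.I_mul_I
    have h2 : ((x : ℂ) * I).re = 0 := by simp
    rw [h1, h2, mul_zero, neg_zero, Real.exp_zero, mul_one]
    exact hM _

lemma pl_upper {F : ℂ → ℂ} {M : ℝ} (hF : Differentiable ℂ F) (ht : ExpType 1 F) (hM : ∀ x : ℝ, ‖F x‖ ≤ M)
    {z : ℂ} (hz : 0 ≤ z.im) : ‖F z‖ ≤ M * Real.exp z.im := by
  have h1 : ∀ ε : ℝ, 0 < ε → ‖F z‖ ≤ M * Real.exp ((1 + ε) * z.im) := by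
    intro ε hε
    have h := pl_aux hF ht hM hε (ζ := -I * z) (by simpa using hz)
    have e1 : I * (-I * z) = z := by linear_combination (-z) * Complex.I_mul_I
    have e2 : (-I * z).re = z.im := by simp
    rwa [e1, e2] at h
  have h2 : Tendsto (fun ε : ℝ => M * Real.exp ((1 + ε) * z.im)) (𝓝[>] 0) (𝓝 (M * Real.exp ((1 + 0) * z.im))) := by
    apply Tendsto.mono_left _ nhdsWithin_le_nhds
    exact Continuous.tendsto (by fun_prop) 0
  rw [add_zero, one_mul] at h2
  exact ge_of_tendsto h2 (by filter_upwards [self_mem_nhdsWithin] with ε hε using h1 ε hε)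

/-- the growth bound for bounded functions of exponential type at most one -/
theorem pl_bound {F : ℂ → ℂ} {M : ℝ} (hF : Differentiable ℂ F) (ht : ExpType 1 F) (hM : ∀ x : ℝ, ‖F x‖ ≤ M)
    (z : ℂ) : ‖F z‖ ≤ M * Real.exp |z.im| := by
  rcases le_total 0 z.im with h | h
  · rw [abs_of_nonneg h]; exact pl_upper hF ht hM h
  · rw [abs_of_nonpos h]
    have h1 := pl_upper (F := fun z => F (-z)) (M := M) (z := -z) (hF.comp (by fun_prop))
      (by
        intro ε hε
        obtain ⟨C, hC⟩ := ht ε hε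
        exact ⟨C, fun z => by have := hC (-z); rwa [norm_neg] at this⟩)
      (fun x => by have := hM (-x); push_cast at this; exact this) (by simpa using h)
    beta_reduce at h1
    rw [neg_neg, Complex.neg_im] at h1
    exact h1

/-- shifting the line of integration -/
theorem shift {G : ℂ → ℂ} (hG : Differentiable ℂ G) {Y C : ℝ}
    (hb : ∀ x y : ℝ, |y| ≤ |Y| → ‖G (x + y * I)‖ ≤ C * (1 + x ^ 2)⁻¹) :
    ∫ x : ℝ, G x = ∫ x : ℝ, G (x + Y * I) := by
  have hC0 : 0 ≤ C := by
    have := (norm_nonneg _).trans (hb 0 0 (by simp))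
    simpa using this
  have hint : ∀ y : ℝ, |y| ≤ |Y| → Integrable (fun x : ℝ => G (x + y * I)) := by
    intro y hy
    apply Integrable.mono' (integrable_inv_one_add_sq.const_mul C)
    · exact (hG.continuous.comp (by fun_prop)).aestronglyMeasurable
    · exact Filter.Eventually.of_forall fun x => hb x y hy
  have h0 : (fun x : ℝ => G x) = fun x : ℝ => G (x + (0 : ℝ) * I) := by
    funext x; simp
  rw [h0]
  have hT : ∀ y : ℝ, |y| ≤ |Y| → Tendsto (fun R : ℝ => ∫ x in (-R)..R, G (x + y * I)) atTop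
      (𝓝 (∫ x : ℝ, G (x + y * I))) := by
    intro y hy
    exact intervalIntegral_tendsto_integral (hint y hy) tendsto_neg_atTop_atBot tendsto_id
  have h1 := hT 0 (by simp)
  have h2 := hT Y le_rfl
  have h3 : Tendsto (fun R : ℝ => (∫ x in (-R)..R, G (x + (0 : ℝ) * I)) - ∫ x in (-R)..R, G (x + Y * I))
      atTop (𝓝 0) := by
    rw [tendsto_zero_iff_norm_tendsto_zero]
    have hbd : ∀ R : ℝ, ‖(∫ x in (-R)..R, G (x + (0 : ℝ) * I)) - ∫ x in (-R)..R, G (x + Y * I)‖ ≤
        2 * |Y| * (C * (1 + R ^ 2)⁻¹) := by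
      intro R
      have hrect := Complex.integral_boundary_rect_eq_zero_of_differentiableOn G (-(R : ℂ)) (R + Y * I)
        hG.differentiableOn
      simp only [Complex.neg_re, Complex.ofReal_re, Complex.add_re, Complex.mul_re, Complex.I_re, mul_zero,
        Complex.ofReal_im, Complex.I_im, mul_one, sub_self, add_zero, Complex.neg_im, neg_zero, Complex.add_im,
        Complex.mul_im, zero_add, Complex.ofReal_neg, Complex.ofReal_zero] at hrect
      have hside : ∀ x : ℝ, x ^ 2 = R ^ 2 → ‖∫ y in (0 : ℝ)..Y, G (x + y * I)‖ ≤ |Y| * (C * (1 + R ^ 2)⁻¹) := by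
        intro x hx
        have := intervalIntegral.norm_integral_le_of_norm_le_const (a := 0) (b := Y)
          (f := fun y : ℝ => G (x + y * I)) (C := C * (1 + R ^ 2)⁻¹) (by
            intro y hy
            rw [← hx]
            apply hb
            rcases le_total 0 Y with hY | hY
            · rw [uIoc_of_le hY] at hy
              rw [abs_of_pos hy.1, abs_of_nonneg hY]; exact hy.2
            · rw [uIoc_of_ge hY] at hy
              rw [abs_of_nonpos hy.2, abs_of_nonpos hY]; linarith [hy.1])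
        rw [sub_zero] at this
        linarith
      have e1 : (∫ x in (-R)..R, G (x + (0 : ℝ) * I)) - ∫ x in (-R)..R, G (x + Y * I) =
          I • (∫ y in (0 : ℝ)..Y, G (((-R : ℝ) : ℂ) + y * I)) - I • ∫ y in (0 : ℝ)..Y, G ((R : ℂ) + y * I) := by
        push_cast
        linear_combination hrect
      rw [e1]
      refine (norm_sub_le _ _).trans ?_
      rw [norm_smul, norm_smul, Complex.norm_I, one_mul, one_mul]
      have s1 := hside (-R) (by ring)
      have s2 := hside R rfl
      linarith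
    apply squeeze_zero (fun _ => norm_nonneg _) hbd
    have h4 : Tendsto (fun R : ℝ => (1 + R ^ 2)⁻¹) atTop (𝓝 0) := by
      apply Tendsto.inv_tendsto_atTop
      apply tendsto_atTop_add_const_left
      exact tendsto_pow_atTop (by norm_num)
    have h5 := (h4.const_mul C).const_mul (2 * |Y|)
    simpa using h5
  have h6 := h1.sub h2
  have h7 := tendsto_nhds_unique h6 h3
  exact sub_eq_zero.1 h7

/-- the Fourier transform of an integrable function of exponential type one lives on a compact interval -/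
theorem fourier_zero {φ : ℂ → ℂ} (hφ : Differentiable ℂ φ) {C : ℝ}
    (hb : ∀ x y : ℝ, ‖φ (x + y * I)‖ ≤ C * Real.exp |y| * (1 + x ^ 2)⁻¹) {ξ : ℝ}
    (hξ : 1 < |2 * Real.pi * ξ|) : ∫ x : ℝ, φ x * Complex.exp (-(2 * Real.pi * ξ * x * I)) = 0 := by
  have hC0 : 0 ≤ C := by
    have := (norm_nonneg _).trans (hb 0 0)
    simpa using this
  set η : ℝ := 2 * Real.pi * ξ with hη
  have hηc : (2 * Real.pi * ξ : ℂ) = (η : ℂ) := by rw [hη]; push_cast; ring
  rw [hηc]
  set G : ℂ → ℂ := fun z => φ z * Complex.exp (-(η * z * I)) with hGdef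
  have hG : Differentiable ℂ G := hφ.mul (by fun_prop)
  have hnorm : ∀ x y : ℝ, ‖G (x + y * I)‖ ≤ C * Real.exp (|y| + η * y) * (1 + x ^ 2)⁻¹ := by
    intro x y
    rw [hGdef]; beta_reduce
    rw [norm_mul, Complex.norm_exp]
    have e1 : (-((η : ℂ) * (x + y * I) * I)).re = η * y := by simp
    rw [e1, Real.exp_add]
    calc ‖φ (x + y * I)‖ * Real.exp (η * y) ≤ (C * Real.exp |y| * (1 + x ^ 2)⁻¹) * Real.exp (η * y) :=
          mul_le_mul_of_nonneg_right (hb x y) (Real.exp_pos _).le
      _ = _ := by ring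
  have hshift : ∀ Y : ℝ, ∫ x : ℝ, G x = ∫ x : ℝ, G (x + Y * I) := by
    intro Y
    apply shift hG (C := C * Real.exp (|Y| + |η| * |Y|))
    intro x y hy
    refine (hnorm x y).trans ?_
    apply mul_le_mul_of_nonneg_right _ (by positivity)
    apply mul_le_mul_of_nonneg_left _ hC0
    apply Real.exp_le_exp.2
    have h1 : η * y ≤ |η| * |y| := by rw [← abs_mul]; exact le_abs_self _
    have h2 : |η| * |y| ≤ |η| * |Y| := mul_le_mul_of_nonneg_left hy (abs_nonneg _)
    linarith
  have hbound : ∀ Y : ℝ, ‖∫ x : ℝ, G x‖ ≤ C * Real.pi * Real.exp (|Y| + η * Y) := by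
    intro Y
    rw [hshift Y]
    calc ‖∫ x : ℝ, G (x + Y * I)‖ ≤ ∫ x : ℝ, C * Real.exp (|Y| + η * Y) * (1 + x ^ 2)⁻¹ := by
          apply norm_integral_le_of_norm_le (integrable_inv_one_add_sq.const_mul _)
          exact Filter.Eventually.of_forall fun x => hnorm x Y
      _ = C * Real.exp (|Y| + η * Y) * Real.pi := by
          rw [integral_const_mul, integral_univ_inv_one_add_sq]
      _ = _ := by ring
  have hlim : Tendsto (fun t : ℝ => C * Real.pi * Real.exp (-(|η| - 1) * t)) atTop (𝓝 (C * Real.pi * 0)) := by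
    apply Tendsto.const_mul
    apply Real.tendsto_exp_atBot.comp
    exact tendsto_id.const_mul_atTop_of_neg (by linarith)
  rw [mul_zero] at hlim
  have h0 : ‖∫ x : ℝ, G x‖ ≤ 0 := by
    apply ge_of_tendsto hlim
    filter_upwards [eventually_ge_atTop (0 : ℝ)] with t ht
    rcases le_total 0 η with h | h
    · have := hbound (-t)
      rw [abs_neg, abs_of_nonneg ht] at this
      rw [abs_of_nonneg h]
      refine this.trans (le_of_eq ?_)
      congr 2; ring
    · have := hbound t
      rw [abs_of_nonneg ht] at this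
      rw [abs_of_nonpos h]
      refine this.trans (le_of_eq ?_)
      congr 2; ring
  exact norm_le_zero_iff.1 h0

/-- representation of an integrable function of exponential type one -/
theorem fourier_rep {φ : ℂ → ℂ} (hφ : Differentiable ℂ φ) {C : ℝ}
    (hb : ∀ x y : ℝ, ‖φ (x + y * I)‖ ≤ C * Real.exp |y| * (1 + x ^ 2)⁻¹) :
    ∃ g : ℝ → ℂ, Continuous g ∧ (∀ ξ : ℝ, 1 < |2 * Real.pi * ξ| → g ξ = 0) ∧
      ∀ x : ℝ, φ x = ∫ ξ : ℝ, g ξ * Complex.exp (2 * Real.pi * ξ * x * I) := by
  set f : ℝ → ℂ := fun x => φ x with hf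
  have hfc : Continuous f := hφ.continuous.comp Complex.continuous_ofReal
  have hfi : Integrable f := by
    apply Integrable.mono' (integrable_inv_one_add_sq.const_mul C) hfc.aestronglyMeasurable
    refine Filter.Eventually.of_forall fun x => ?_
    have := hb x 0
    simpa using this
  have hF : ∀ ξ : ℝ, 𝓕 f ξ = ∫ x : ℝ, φ x * Complex.exp (-(2 * Real.pi * ξ * x * I)) := by
    intro ξ
    rw [Real.fourier_real_eq_integral_exp_smul]
    apply integral_congr_ae
    refine Filter.Eventually.of_forall fun x => ?_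
    beta_reduce
    rw [smul_eq_mul, mul_comm, hf]
    congr 2
    push_cast; ring
  have hgc : Continuous (𝓕 f) := by
    exact VectorFourier.fourierIntegral_continuous Real.continuous_fourierChar
      (by exact continuous_inner) hfi
  have hzero : ∀ ξ : ℝ, 1 < |2 * Real.pi * ξ| → 𝓕 f ξ = 0 := fun ξ hξ => by
    rw [hF]; exact fourier_zero hφ hb hξ
  have hcs : HasCompactSupport (𝓕 f) := by
    apply HasCompactSupport.intro (isCompact_Icc (a := (-1 : ℝ)) (b := 1))
    intro ξ hξ
    apply hzero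
    rw [abs_mul, abs_of_pos Real.two_pi_pos]
    have h1 : 1 < |ξ| := by
      by_contra hcon
      rw [not_lt, abs_le] at hcon
      exact hξ hcon
    have h2 : (1 : ℝ) < 2 * Real.pi := by have := Real.pi_gt_three; linarith
    nlinarith
  have hgi : Integrable (𝓕 f) := hgc.integrable_of_hasCompactSupport hcs
  refine ⟨𝓕 f, hgc, hzero, fun x => ?_⟩
  have hinv := congrFun (hfc.fourierInv_fourier_eq hfi hgi) x
  rw [Real.fourierInv_eq'] at hinv
  have : φ x = f x := rfl
  rw [this, ← hinv]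
  apply integral_congr_ae
  refine Filter.Eventually.of_forall fun ξ => ?_
  beta_reduce
  rw [smul_eq_mul, mul_comm]
  congr 2
  have : inner ℝ ξ x = ξ * x := by simp [mul_comm]
  rw [this]
  push_cast; ring

end Pool.Agent.Helper935.EX
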