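import Pool.Agent.Helper935.EX.Low

open Complex Filter Topology Set MeasureTheory

namespace Pool.Agent.Helper935.EX

lemma kap_tendsto : Tendsto kap (𝓝[>] 0) (𝓝 (1 / 3)) := by
  have h1 : Tendsto (fun c : ℝ => (Real.sin c - c * Real.cos c) / c ^ 3) (𝓝[>] 0) (𝓝 (1 / 3)) := by
    rw [tendsto_iff_norm_sub_tendsto_zero]
    have hlim : Tendsto (fun c : ℝ => 5 / 48 * c) (𝓝[>] 0) (𝓝 0) := by
      have : Tendsto (fun c : ℝ => 5 / 48 * c) (𝓝 0) (𝓝 (5 / 48 * 0)) :=
        Continuous.tendsto (by fun_prop) 0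
      rw [mul_zero] at this
      exact this.mono_left nhdsWithin_le_nhds
    apply squeeze_zero' (Filter.Eventually.of_forall fun _ => norm_nonneg _) _ hlim
    have hmem : Set.Ioo (0 : ℝ) 1 ∈ 𝓝[>] (0 : ℝ) := Ioo_mem_nhdsGT one_pos
    filter_upwards [hmem] with c hc
    have hc0 : 0 < c := hc.1
    have hc1 : c < 1 := hc.2
    have habs : |c| ≤ 1 := by rw [abs_of_pos hc0]; exact hc1.le
    have b1 := Real.sin_bound habs
    have b2 := Real.cos_bound habs
    rw [abs_of_pos hc0] at b1 b2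
    rw [Real.norm_eq_abs]
    have e : (Real.sin c - c * Real.cos c) / c ^ 3 - 1 / 3 =
        ((Real.sin c - (c - c ^ 3 / 6)) - c * (Real.cos c - (1 - c ^ 2 / 2))) / c ^ 3 := by
      field_simp; ring
    rw [e, abs_div, abs_of_pos (by positivity : 0 < c ^ 3), div_le_iff₀ (by positivity)]
    have h2 := abs_sub (Real.sin c - (c - c ^ 3 / 6)) (c * (Real.cos c - (1 - c ^ 2 / 2)))
    have h3 : |c * (Real.cos c - (1 - c ^ 2 / 2))| ≤ c * (c ^ 4 * (5 / 96)) := by
      rw [abs_mul, abs_of_pos hc0]; exact mul_le_mul_of_nonneg_left b2 hc0.le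
    have h4 : c * (c ^ 4 * (5 / 96)) ≤ 1 * (c ^ 4 * (5 / 96)) :=
      mul_le_mul_of_nonneg_right hc1.le (by positivity)
    nlinarith
  have h2 : Tendsto (fun c : ℝ => Real.sinc c) (𝓝[>] 0) (𝓝 1) := by
    have := Real.continuous_sinc.tendsto 0
    rw [Real.sinc_zero] at this
    exact this.mono_left nhdsWithin_le_nhds
  have h3 := h1.div h2 one_ne_zero
  rw [div_one] at h3
  refine h3.congr' ?_
  filter_upwards [self_mem_nhdsWithin] with c hc
  have hc0 : (0 : ℝ) < c := hc
  unfold kap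
  rw [Pi.div_apply, Real.sinc_of_ne_zero hc0.ne']
  by_cases hs : Real.sin c = 0
  · rw [hs]; simp
  · field_simp

lemma th_one (c : ℝ) : th c 1 = Real.sin c / c - kap c * Real.cos c := by
  unfold th; rw [mul_one, one_mul]

lemma th_one_tendsto : Tendsto (fun c => th c 1) (𝓝[>] 0) (𝓝 (2 / 3)) := by
  have h2 : Tendsto (fun c : ℝ => Real.sinc c) (𝓝[>] 0) (𝓝 1) := by
    have := Real.continuous_sinc.tendsto 0
    rw [Real.sinc_zero] at this
    exact this.mono_left nhdsWithin_le_nhds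
  have h3 : Tendsto (fun c : ℝ => Real.cos c) (𝓝[>] 0) (𝓝 1) := by
    have := Real.continuous_cos.tendsto 0
    rw [Real.cos_zero] at this
    exact this.mono_left nhdsWithin_le_nhds
  have h4 := h2.sub (kap_tendsto.mul h3)
  have e : (1 : ℝ) - 1 / 3 * 1 = 2 / 3 := by norm_num
  rw [e] at h4
  refine h4.congr' ?_
  filter_upwards [self_mem_nhdsWithin] with c hc
  have hc0 : (0 : ℝ) < c := hc
  rw [th_one, Real.sinc_of_ne_zero hc0.ne']

lemma kap_mul_sin {t : ℝ} (h0 : 0 < t) (h1 : t < Real.pi) :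
    kap t * Real.sin t = (Real.sin t - t * Real.cos t) / t ^ 2 := by
  have hs : Real.sin t ≠ 0 := (Real.sin_pos_of_pos_of_lt_pi h0 h1).ne'
  unfold kap; field_simp

lemma exists_root {x y : ℝ} (h : 0 < y ∨ (y = 0 ∧ x < -(1 / 3))) :
    ∃ t : ℝ, 0 < t ∧ t < Real.pi ∧ y * Real.cos t = (x + kap t) * Real.sin t := by
  have hy : 0 ≤ y := by rcases h with h | h; exacts [h.le, h.1.ge]
  have hev : ∀ᶠ t in 𝓝[>] (0 : ℝ), 0 < y * Real.cos t - (x + kap t) * Real.sin t := by
    have hsin : Tendsto (fun c : ℝ => Real.sin c) (𝓝[>] 0) (𝓝 0) := by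
      have := Real.continuous_sin.tendsto 0
      rw [Real.sin_zero] at this
      exact this.mono_left nhdsWithin_le_nhds
    have hcos : Tendsto (fun c : ℝ => Real.cos c) (𝓝[>] 0) (𝓝 1) := by
      have := Real.continuous_cos.tendsto 0
      rw [Real.cos_zero] at this
      exact this.mono_left nhdsWithin_le_nhds
    have hk : Tendsto (fun t => x + kap t) (𝓝[>] 0) (𝓝 (x + 1 / 3)) := kap_tendsto.const_add x
    rcases h with h | ⟨h1, h2⟩
    · have h3 := (hcos.const_mul y).sub (hk.mul hsin)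
      rw [mul_one, mul_zero, sub_zero] at h3
      exact h3.eventually_const_lt h
    · have h3 : ∀ᶠ t in 𝓝[>] (0 : ℝ), x + kap t < 0 := hk.eventually_lt_const (by linarith)
      have hmem : Set.Ioo (0 : ℝ) Real.pi ∈ 𝓝[>] (0 : ℝ) := Ioo_mem_nhdsGT Real.pi_pos
      filter_upwards [h3, hmem] with t ht1 ht2
      have hs := Real.sin_pos_of_pos_of_lt_pi ht2.1 ht2.2
      rw [h1, zero_mul, zero_sub]
      nlinarith
  have hmem : Set.Ioo (0 : ℝ) Real.pi ∈ 𝓝[>] (0 : ℝ) := Ioo_mem_nhdsGT Real.pi_pos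
  obtain ⟨t₀, ht₀, ht₀'⟩ := (hev.and hmem).exists
  set F : ℝ → ℝ := fun t => y * Real.cos t - x * Real.sin t - (Real.sin t - t * Real.cos t) / t ^ 2 with hF
  have hFeq : ∀ t, 0 < t → t < Real.pi → F t = y * Real.cos t - (x + kap t) * Real.sin t := by
    intro t h0 h1
    rw [hF]; beta_reduce
    rw [← kap_mul_sin h0 h1]; ring
  have hFc : ContinuousOn F (Set.Icc t₀ Real.pi) := by
    rw [hF]
    apply ContinuousOn.sub (by fun_prop)
    apply ContinuousOn.div (by fun_prop) (by fun_prop)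
    intro t ht
    have : 0 < t := lt_of_lt_of_le ht₀'.1 ht.1
    positivity
  have hFpi : F Real.pi < 0 := by
    rw [hF]; beta_reduce
    rw [Real.cos_pi, Real.sin_pi]
    have : 0 < (0 - Real.pi * -1) / Real.pi ^ 2 := by
      have := Real.pi_pos
      have e : (0 - Real.pi * -1) / Real.pi ^ 2 = 1 / Real.pi := by field_simp; ring
      rw [e]; positivity
    linarith
  have hF0 : 0 < F t₀ := by rw [hFeq t₀ ht₀'.1 ht₀'.2]; exact ht₀
  have hiv := intermediate_value_Icc' ht₀'.2.le hFc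
  obtain ⟨t, ht, ht2⟩ := hiv ⟨hFpi.le, hF0.le⟩
  have htpi : t < Real.pi := by
    rcases lt_or_eq_of_le ht.2 with h | h
    · exact h
    · rw [h] at ht2; linarith
  have ht0 : 0 < t := lt_of_lt_of_le ht₀'.1 ht.1
  refine ⟨t, ht0, htpi, ?_⟩
  rw [hFeq t ht0 htpi] at ht2
  linarith

/-- `κ` with its value at the origin -/
noncomputable def kapp (c : ℝ) : ℝ := if c = 0 then 1 / 3 else (Real.sin c - c * Real.cos c) / (c ^ 2 * Real.sin c)

/-- the minimal total mass -/
noncomputable def muf (c : ℝ) : ℝ := if c = 0 then 2 / 3 else (2 * c - Real.sin (2 * c)) / (2 * c ^ 2 * Real.sin c)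

lemma kapp_of_ne {c : ℝ} (hc : c ≠ 0) : kapp c = kap c := by unfold kapp kap; rw [if_neg hc]

lemma kap_neg (c : ℝ) : kap (-c) = kap c := by
  unfold kap
  rw [Real.sin_neg, Real.cos_neg, neg_sq]
  have e1 : -Real.sin c - -c * Real.cos c = -(Real.sin c - c * Real.cos c) := by ring
  have e2 : c ^ 2 * -Real.sin c = -(c ^ 2 * Real.sin c) := by ring
  rw [e1, e2, neg_div_neg_eq]

lemma kap_abs (c : ℝ) : kap |c| = kap c := by
  rcases abs_choice c with h | h
  · rw [h]
  · rw [h, kap_neg]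

lemma sin_ne {c : ℝ} (hc : |c| < Real.pi) (h0 : c ≠ 0) : Real.sin c ≠ 0 := by
  rw [abs_lt] at hc
  exact fun h => h0 ((Real.sin_eq_zero_iff_of_lt_of_lt hc.1 hc.2).1 h)

lemma th_abs_one {c : ℝ} (hc : |c| < Real.pi) (h0 : c ≠ 0) : th |c| 1 = muf c := by
  have hs := sin_ne hc h0
  have e1 : Real.sin |c| / |c| = Real.sin c / c := by
    rcases abs_choice c with h | h
    · rw [h]
    · rw [h, Real.sin_neg, neg_div_neg_eq]
  rw [th_one, kap_abs, Real.cos_abs, e1]
  unfold kap muf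
  rw [if_neg h0, Real.sin_two_mul]
  have hsq := Real.sin_sq_add_cos_sq c
  generalize Real.sin c = s at *
  generalize Real.cos c = k at *
  field_simp
  linear_combination c * hsq

lemma muf_nonneg {c : ℝ} (hc : |c| < Real.pi) : 0 ≤ muf c := by
  by_cases h0 : c = 0
  · rw [h0]; unfold muf; rw [if_pos rfl]; norm_num
  · rw [← th_abs_one hc h0]
    have h1 : 0 < |c| := abs_pos.2 h0
    exact (nu_sum h1 hc).nonneg (nu_nonneg h1 hc)

lemma exists_param (lam : ℂ) : ∃ c ρ : ℝ, |c| < Real.pi ∧ 0 ≤ ρ ∧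
    lam = -(kapp c : ℂ) + ρ * Complex.exp (-(c * I)) := by
  set x := lam.re with hx
  set y := lam.im with hy
  have hlam : lam = x + y * I := (Complex.re_add_im lam).symm
  by_cases hcase : y = 0 ∧ -(1 / 3) ≤ x
  · refine ⟨0, x + 1 / 3, by rw [abs_zero]; exact Real.pi_pos, by linarith [hcase.2], ?_⟩
    unfold kapp
    rw [if_pos rfl, hlam, hcase.1]
    push_cast
    simp
  · have hroot : 0 < |y| ∨ (|y| = 0 ∧ x < -(1 / 3)) := by
      by_cases hy0 : y = 0
      · right
        refine ⟨by rw [hy0, abs_zero], ?_⟩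
        by_contra hcon
        exact hcase ⟨hy0, not_lt.1 hcon⟩
      · left; exact abs_pos.2 hy0
    obtain ⟨t, ht0, ht1, ht⟩ := exists_root hroot
    have hs := Real.sin_pos_of_pos_of_lt_pi ht0 ht1
    rcases le_total 0 y with hy0 | hy0
    · refine ⟨-t, y / Real.sin t, by rw [abs_neg, abs_of_pos ht0]; exact ht1, by positivity, ?_⟩
      rw [abs_of_nonneg hy0] at ht
      rw [kapp_of_ne (neg_ne_zero.2 ht0.ne'), kap_neg]
      have e1 : -(((-t : ℝ) : ℂ) * I) = t * I := by push_cast; ring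
      rw [e1, Complex.exp_mul_I]
      have hre : x = -kap t + y / Real.sin t * Real.cos t := by field_simp; linarith
      have hsc : Complex.sin t ≠ 0 := by
        rw [← Complex.ofReal_sin]; exact_mod_cast hs.ne'
      have hrec := congrArg Complex.ofReal hre
      push_cast at hrec
      rw [hlam, hrec]
      push_cast
      field_simp
      ring
    · refine ⟨t, -y / Real.sin t, by rw [abs_of_pos ht0]; exact ht1, div_nonneg (by linarith) hs.le, ?_⟩
      rw [abs_of_nonpos hy0] at ht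
      rw [kapp_of_ne ht0.ne']
      have e1 : -((t : ℂ) * I) = (-(t : ℂ)) * I := by ring
      rw [e1, Complex.exp_mul_I, Complex.cos_neg, Complex.sin_neg]
      have hre : x = -kap t + -y / Real.sin t * Real.cos t := by field_simp; linarith
      have hsc : Complex.sin t ≠ 0 := by
        rw [← Complex.ofReal_sin]; exact_mod_cast hs.ne'
      have hrec := congrArg Complex.ofReal hre
      push_cast at hrec
      rw [hlam, hrec]
      push_cast
      field_simp
      ring

/-- the value on the curve -/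
lemma gam_sub {c : ℝ} (hc : |c| < Real.pi) : gam c - kapp c = muf c * Complex.exp (-(c * I)) := by
  by_cases h0 : c = 0
  · subst h0
    unfold gam kapp muf
    rw [if_pos rfl, if_pos rfl]
    simp
    norm_num
  · have hs := sin_ne hc h0
    have hc' : (c : ℂ) ≠ 0 := by exact_mod_cast h0
    have hsc : Complex.sin c ≠ 0 := by
      rw [← Complex.ofReal_sin]; exact_mod_cast hs
    have hs1 : Real.sinc c = Real.sin c / c := Real.sinc_of_ne_zero h0
    have hs2 : Real.sinc (2 * c) = Real.sin c * Real.cos c / c := by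
      rw [Real.sinc_of_ne_zero (mul_ne_zero two_ne_zero h0), Real.sin_two_mul]; field_simp
    unfold gam kapp muf
    rw [if_neg h0, if_neg h0, hs1, hs2, Real.sin_two_mul]
    have e1 : -((c : ℂ) * I) = (-(c : ℂ)) * I := by ring
    rw [e1, Complex.exp_mul_I, Complex.cos_neg, Complex.sin_neg]
    push_cast
    have hsq := Complex.sin_sq_add_cos_sq (c : ℂ)
    generalize Complex.sin (c : ℂ) = s at *
    generalize Complex.cos (c : ℂ) = k at *
    field_simp
    linear_combination s * hsq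

lemma param_value {c ρ : ℝ} (hc : |c| < Real.pi) (hρ : 0 ≤ ρ) {lam : ℂ}
    (hlam : lam = -(kapp c : ℂ) + ρ * Complex.exp (-(c * I))) : ‖lam + gam c‖ = ρ + muf c := by
  have h1 := gam_sub hc
  have h2 : lam + gam c = ((ρ + muf c : ℝ) : ℂ) * Complex.exp (-(c * I)) := by
    rw [hlam]; push_cast; linear_combination h1
  rw [h2, norm_mul, Complex.norm_real, Real.norm_of_nonneg (add_nonneg hρ (muf_nonneg hc)), Complex.norm_exp]
  simp

/-- the upper bound at the origin in parametric form -/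
theorem upper_param {c ρ : ℝ} (hc : |c| < Real.pi) (hρ : 0 ≤ ρ) {lam : ℂ}
    (hlam : lam = -(kapp c : ℂ) + ρ * Complex.exp (-(c * I))) {f : ℂ → ℂ} (hf : Differentiable ℂ f)
    (ht : ExpType 1 f) (hb : ∀ x : ℝ, ‖f x‖ ≤ 1) :
    ‖-deriv (deriv f) 0 + lam * f 0‖ ≤ ρ + muf c := by
  by_cases h0 : c = 0
  · subst h0
    have hlam2 : lam = -(1 / 3 : ℝ) + ρ := by
      rw [hlam]; unfold kapp; rw [if_pos rfl]; simp
    have hlim : Tendsto (fun c' : ℝ => ‖lam + kap c'‖ + th c' 1) (𝓝[>] 0) (𝓝 (‖lam + ((1 / 3 : ℝ) : ℂ)‖ + 2 / 3)) := by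
      apply Tendsto.add _ th_one_tendsto
      apply Tendsto.norm
      apply Tendsto.const_add
      exact (Complex.continuous_ofReal.tendsto _).comp kap_tendsto
    have hval : ‖lam + ((1 / 3 : ℝ) : ℂ)‖ + 2 / 3 = ρ + muf 0 := by
      rw [hlam2]
      have : (-((1 / 3 : ℝ) : ℂ) + (ρ : ℂ) + ((1 / 3 : ℝ) : ℂ)) = (ρ : ℂ) := by ring
      rw [this, Complex.norm_real, Real.norm_of_nonneg hρ]
      unfold muf; rw [if_pos rfl]
    rw [← hval]
    refine ge_of_tendsto hlim ?_
    have hmem : Set.Ioo (0 : ℝ) Real.pi ∈ 𝓝[>] (0 : ℝ) := Ioo_mem_nhdsGT Real.pi_pos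
    filter_upwards [hmem] with c' hc'
    exact upper_zero hc'.1 hc'.2 hf ht hb lam
  · have h1 := upper_zero (abs_pos.2 h0) hc hf ht hb lam
    rw [th_abs_one hc h0, kap_abs] at h1
    have h2 : lam + kap c = (ρ : ℂ) * Complex.exp (-(c * I)) := by
      rw [hlam, kapp_of_ne h0]; ring
    rw [h2, norm_mul, Complex.norm_real, Real.norm_of_nonneg hρ, Complex.norm_exp] at h1
    simpa using h1

end Pool.Agent.Helper935.EX
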