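import Pool.Agent.Helper935.EX.Fun

open Complex Filter Topology Set MeasureTheory

namespace Pool.Agent.Helper935.EX

lemma differentiable_deriv {F : ℂ → ℂ} (hF : Differentiable ℂ F) : Differentiable ℂ (deriv F) := by
  have := hF.contDiff (n := 2)
  exact ((contDiff_succ_iff_deriv (n := 1)).1 this).2.2.differentiable (by norm_num)

/-- damping -/
noncomputable def dmp (F : ℂ → ℂ) (ε : ℝ) (z : ℂ) : ℂ := F ((1 - 2 * ε) * z) * sc (ε * z) ^ 2

lemma differentiable_dmp {F : ℂ → ℂ} (hF : Differentiable ℂ F) (ε : ℝ) : Differentiable ℂ (dmp F ε) := by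
  unfold dmp
  exact (hF.comp (by fun_prop)).mul ((differentiable_sc.comp (by fun_prop)).pow 2)

lemma deriv_dmp {F : ℂ → ℂ} (hF : Differentiable ℂ F) (ε : ℝ) (z : ℂ) :
    deriv (dmp F ε) z = deriv F ((1 - 2 * ε) * z) * (1 - 2 * ε) * sc (ε * z) ^ 2 +
      F ((1 - 2 * ε) * z) * (2 * sc (ε * z) * (deriv sc (ε * z) * ε)) := by
  have h1 : HasDerivAt (fun z : ℂ => F ((1 - 2 * ε) * z)) (deriv F ((1 - 2 * ε) * z) * (1 - 2 * ε)) z := by
    have h2 : HasDerivAt (fun z : ℂ => (1 - 2 * (ε : ℂ)) * z) (1 - 2 * ε) z := by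
      simpa using (hasDerivAt_id z).const_mul (1 - 2 * (ε : ℂ))
    exact HasDerivAt.comp (h₂ := F) (h := fun z : ℂ => (1 - 2 * (ε : ℂ)) * z) z (hF _).hasDerivAt h2
  have h3 : HasDerivAt (fun z : ℂ => sc (ε * z)) (deriv sc (ε * z) * ε) z := by
    have h2 : HasDerivAt (fun z : ℂ => (ε : ℂ) * z) ε z := by
      simpa using (hasDerivAt_id z).const_mul (ε : ℂ)
    exact HasDerivAt.comp (h₂ := sc) (h := fun z : ℂ => (ε : ℂ) * z) z (differentiable_sc _).hasDerivAt h2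
  have h4 : HasDerivAt (fun z : ℂ => sc (ε * z) ^ 2) (2 * sc (ε * z) * (deriv sc (ε * z) * ε)) z := by
    have := h3.fun_pow 2
    simpa using this
  exact (h1.mul h4).deriv

lemma norm_sc_sq_le {ε : ℝ} (h0 : 0 < ε) (h1 : ε ≤ 1) (x y : ℝ) :
    ‖sc (ε * (x + y * I))‖ ^ 2 ≤ 2 / ε ^ 2 * Real.exp (2 * (ε * |y|)) * (1 + x ^ 2)⁻¹ := by
  set z : ℂ := (ε : ℂ) * (x + y * I) with hz
  have him : z.im = ε * y := by rw [hz]; simp
  have hre : z.re = ε * x := by rw [hz]; simp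
  have habs : |z.im| = ε * |y| := by rw [him, abs_mul, abs_of_pos h0]
  have a1 := norm_sc_le z
  have a2 := norm_sc_mul_le z
  rw [habs] at a1 a2
  have a3 : ε * |x| ≤ ‖z‖ := by
    have := Complex.abs_re_le_norm z
    rw [hre, abs_mul, abs_of_pos h0] at this; exact this
  have hE : Real.exp (2 * (ε * |y|)) = Real.exp (ε * |y|) ^ 2 := by
    rw [← Real.exp_nat_mul]; congr 1
  have b1 : ‖sc z‖ ^ 2 ≤ Real.exp (ε * |y|) ^ 2 := pow_le_pow_left₀ (norm_nonneg _) a1 2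
  have b2 : (‖sc z‖ * (ε * |x|)) ^ 2 ≤ Real.exp (ε * |y|) ^ 2 := by
    apply pow_le_pow_left₀ (by positivity)
    exact (mul_le_mul_of_nonneg_left a3 (norm_nonneg _)).trans a2
  have b3 : (‖sc z‖ * (ε * |x|)) ^ 2 = ‖sc z‖ ^ 2 * (ε ^ 2 * x ^ 2) := by
    rw [mul_pow, mul_pow, sq_abs]
  rw [b3] at b2
  have hε2 : ε ^ 2 ≤ 1 := by nlinarith
  have b4 : ‖sc z‖ ^ 2 * (ε ^ 2 * (1 + x ^ 2)) ≤ 2 * Real.exp (ε * |y|) ^ 2 := by
    have : ‖sc z‖ ^ 2 * (ε ^ 2 * (1 + x ^ 2)) ≤ ‖sc z‖ ^ 2 * (1 + ε ^ 2 * x ^ 2) := by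
      apply mul_le_mul_of_nonneg_left _ (by positivity)
      nlinarith
    nlinarith
  rw [hE]
  have hpos : 0 < ε ^ 2 * (1 + x ^ 2) := by positivity
  calc ‖sc z‖ ^ 2 ≤ (2 * Real.exp (ε * |y|) ^ 2) / (ε ^ 2 * (1 + x ^ 2)) := by rw [le_div_iff₀ hpos]; exact b4
    _ = _ := by field_simp

/-- the interpolation bound for bounded functions of exponential type one -/
theorem As_bound' {c : ℝ} (hc0 : 0 < c) (hc1 : c < Real.pi) {F : ℂ → ℂ} (hF : Differentiable ℂ F)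
    (ht : ExpType 1 F) {M₀ : ℝ} (hM₀ : ∀ x : ℝ, ‖F x‖ ≤ M₀) {M : ℝ} (hM : ∀ x : ℝ, c ≤ |x| → ‖F x‖ ≤ M) :
    ‖As c F‖ ≤ M * th c 1 := by
  have hM₀0 : 0 ≤ M₀ := (norm_nonneg _).trans (hM₀ 0)
  have hM0 : 0 ≤ M := (norm_nonneg _).trans (hM c (le_abs_self c))
  set Q : ℝ → ℂ := fun ε => -((deriv F ((1 - 2 * ε) * c) * (1 - 2 * ε) * sc (ε * c) ^ 2 +
      F ((1 - 2 * ε) * c) * (2 * sc (ε * c) * (deriv sc (ε * c) * ε))) -
      (deriv F ((1 - 2 * ε) * -c) * (1 - 2 * ε) * sc (ε * -c) ^ 2 +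
      F ((1 - 2 * ε) * -c) * (2 * sc (ε * -c) * (deriv sc (ε * -c) * ε)))) / (2 * c) -
      kap c * ((F ((1 - 2 * ε) * c) * sc (ε * c) ^ 2 + F ((1 - 2 * ε) * -c) * sc (ε * -c) ^ 2) / 2) with hQ
  have hQA : ∀ ε : ℝ, As c (dmp F ε) = Q ε := by
    intro ε
    rw [hQ]; unfold As
    rw [deriv_dmp hF, deriv_dmp hF]
    rfl
  have hQ0 : Q 0 = As c F := by
    rw [hQ]; unfold As
    simp [sc_zero]
  have hF' := (differentiable_deriv hF).continuous
  have hFc := hF.continuous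
  have hsc := differentiable_sc.continuous
  have hsc' := (differentiable_deriv differentiable_sc).continuous
  have hQc : Continuous Q := by
    rw [hQ]
    fun_prop
  have hlim : Tendsto (fun ε : ℝ => ‖Q ε‖) (𝓝[>] 0) (𝓝 ‖As c F‖) := by
    rw [← hQ0]
    exact (hQc.norm.tendsto 0).mono_left nhdsWithin_le_nhds
  refine le_of_tendsto hlim ?_
  set δ : ℝ := min (1 / 2) ((1 - c / Real.pi) / 2) with hδ
  have hcπ : c / Real.pi < 1 := by rw [div_lt_one Real.pi_pos]; exact hc1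
  have hδ0 : 0 < δ := lt_min (by norm_num) (by linarith)
  have hmem : Set.Ioo (0 : ℝ) δ ∈ 𝓝[>] (0 : ℝ) := Ioo_mem_nhdsGT hδ0
  filter_upwards [hmem] with ε hε
  have he0 : 0 < ε := hε.1
  have he1 : ε < 1 / 2 := lt_of_lt_of_le hε.2 (min_le_left _ _)
  have he2 : ε < (1 - c / Real.pi) / 2 := lt_of_lt_of_le hε.2 (min_le_right _ _)
  have hcπ2 : c ≤ (1 - 2 * ε) * Real.pi := by
    have : c / Real.pi < 1 - 2 * ε := by linarith
    rw [div_lt_iff₀ Real.pi_pos] at this; exact this.le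
  rw [← hQA]
  apply As_bound hc0 hc1 (differentiable_dmp hF ε) (C := M₀ * (2 / ε ^ 2))
  · intro x y
    unfold dmp
    rw [norm_mul, norm_pow]
    have h1 := pl_bound hF ht hM₀ ((1 - 2 * ε) * (x + y * I))
    have him : ((1 - 2 * (ε : ℂ)) * (x + y * I)).im = (1 - 2 * ε) * y := by simp
    rw [him, abs_mul, abs_of_pos (by linarith)] at h1
    have h2 := norm_sc_sq_le he0 (by linarith) x y
    calc ‖F ((1 - 2 * ε) * (x + y * I))‖ * ‖sc (ε * (x + y * I))‖ ^ 2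
        ≤ (M₀ * Real.exp ((1 - 2 * ε) * |y|)) * (2 / ε ^ 2 * Real.exp (2 * (ε * |y|)) * (1 + x ^ 2)⁻¹) :=
          mul_le_mul h1 h2 (by positivity) (by positivity)
      _ = M₀ * (2 / ε ^ 2) * (Real.exp ((1 - 2 * ε) * |y|) * Real.exp (2 * (ε * |y|))) * (1 + x ^ 2)⁻¹ := by ring
      _ = _ := by
          rw [← Real.exp_add]; congr 3; ring
  · intro n hn
    unfold dmp
    rw [norm_mul, norm_pow]
    have e1 : (1 - 2 * (ε : ℂ)) * ((Real.pi * n : ℝ) : ℂ) = (((1 - 2 * ε) * (Real.pi * n) : ℝ) : ℂ) := by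
      push_cast; ring
    have e2 : (ε : ℂ) * ((Real.pi * n : ℝ) : ℂ) = ((ε * (Real.pi * n) : ℝ) : ℂ) := by
      push_cast; ring
    rw [e1, e2]
    have h1 : ‖F (((1 - 2 * ε) * (Real.pi * n) : ℝ) : ℂ)‖ ≤ M := by
      apply hM
      rw [abs_mul, abs_mul, abs_of_pos (by linarith), abs_of_pos Real.pi_pos]
      have hn1 : (1 : ℝ) ≤ |(n : ℝ)| := by
        have := Int.one_le_abs hn
        exact_mod_cast this
      calc c ≤ (1 - 2 * ε) * Real.pi := hcπ2
        _ = (1 - 2 * ε) * (Real.pi * 1) := by ring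
        _ ≤ (1 - 2 * ε) * (Real.pi * |(n : ℝ)|) := by
            apply mul_le_mul_of_nonneg_left _ (by linarith)
            exact mul_le_mul_of_nonneg_left hn1 Real.pi_pos.le
    have h2 : ‖sc ((ε * (Real.pi * n) : ℝ) : ℂ)‖ ≤ 1 := by
      have := norm_sc_le ((ε * (Real.pi * n) : ℝ) : ℂ)
      simpa using this
    calc ‖F (((1 - 2 * ε) * (Real.pi * n) : ℝ) : ℂ)‖ * ‖sc ((ε * (Real.pi * n) : ℝ) : ℂ)‖ ^ 2
        ≤ M * 1 ^ 2 := mul_le_mul h1 (pow_le_pow_left₀ (norm_nonneg _) h2 2) (by positivity) hM0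
      _ = M := by ring

/-- the upper bound at the origin for even functions -/
theorem upper_even {c : ℝ} (hc0 : 0 < c) (hc1 : c < Real.pi) {f : ℂ → ℂ} (hf : Differentiable ℂ f)
    (he : ∀ z, f (-z) = f z) (ht : ExpType 1 f) (hb : ∀ x : ℝ, ‖f x‖ ≤ 1) :
    ‖-deriv (deriv f) 0 - kap c * f 0‖ ≤ th c 1 := by
  set F : ℂ → ℂ := lft f (-(c : ℂ) ^ 2) with hF
  have hFd : Differentiable ℂ F := differentiable_lft hf he _
  have hFt : ExpType 1 F := expType_lft zero_le_one ht _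
  have hout : ∀ x : ℝ, c ≤ |x| → ‖F x‖ ≤ 1 := by
    intro x hx
    have hx2 : c ^ 2 ≤ x ^ 2 := by
      rw [← sq_abs x]; exact pow_le_pow_left₀ hc0.le hx 2
    have h1 : F x = f ((Real.sqrt (x ^ 2 - c ^ 2) : ℝ) : ℂ) := by
      apply lft_eq he
      rw [← Complex.ofReal_pow, Real.sq_sqrt (by linarith)]
      push_cast; ring
    rw [h1]; exact hb _
  have hin : ∀ x : ℝ, ‖F x‖ ≤ Real.exp c := by
    intro x
    rcases le_total c |x| with hx | hx
    · exact (hout x hx).trans (Real.one_le_exp hc0.le)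
    · have hx2 : x ^ 2 ≤ c ^ 2 := by
        rw [← sq_abs x]; exact pow_le_pow_left₀ (abs_nonneg x) hx 2
      have h1 : F x = f (I * (Real.sqrt (c ^ 2 - x ^ 2) : ℝ)) := by
        apply lft_eq he
        rw [mul_pow, ← Complex.ofReal_pow, Real.sq_sqrt (by linarith), Complex.I_sq]
        push_cast; ring
      rw [h1]
      have h2 := pl_bound hf ht hb (I * (Real.sqrt (c ^ 2 - x ^ 2) : ℝ))
      rw [one_mul] at h2
      refine h2.trans (Real.exp_le_exp.2 ?_)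
      have : (I * ((Real.sqrt (c ^ 2 - x ^ 2) : ℝ) : ℂ)).im = Real.sqrt (c ^ 2 - x ^ 2) := by simp
      rw [this, abs_of_nonneg (Real.sqrt_nonneg _)]
      apply Real.sqrt_le_iff.2
      exact ⟨hc0.le, by nlinarith [sq_nonneg x]⟩
  have hA := As_bound' hc0 hc1 hFd hFt hin hout
  rw [one_mul] at hA
  have hc' : (c : ℂ) ≠ 0 := by exact_mod_cast hc0.ne'
  set G' : ℂ := deriv (fun s => f (rt s)) 0 with hG'
  have d1 : deriv F c = G' * (2 * c) := by
    rw [hF, deriv_lft hf he, show (c : ℂ) ^ 2 + -(c : ℂ) ^ 2 = 0 by ring]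
  have d2 : deriv F (-c) = G' * (2 * -c) := by
    rw [hF, deriv_lft hf he, show (-(c : ℂ)) ^ 2 + -(c : ℂ) ^ 2 = 0 by ring]
  have v1 : F c = f 0 := by apply lft_eq he; ring
  have v2 : F (-c) = f 0 := by apply lft_eq he; ring
  have h0 : f = lft f 0 := by
    funext z; exact (lft_eq he (by ring)).symm
  have d3 : deriv (deriv f) 0 = 2 * G' := by
    have := deriv2_lft_zero hf he 0
    rw [← h0] at this
    exact this
  have hAe : As c F = -deriv (deriv f) 0 - kap c * f 0 := by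
    unfold As
    rw [d1, d2, v1, v2, d3]
    field_simp
    ring
  rw [hAe] at hA
  exact hA

/-- the upper bound at the origin -/
theorem upper_zero {c : ℝ} (hc0 : 0 < c) (hc1 : c < Real.pi) {f : ℂ → ℂ} (hf : Differentiable ℂ f)
    (ht : ExpType 1 f) (hb : ∀ x : ℝ, ‖f x‖ ≤ 1) (lam : ℂ) :
    ‖-deriv (deriv f) 0 + lam * f 0‖ ≤ ‖lam + kap c‖ + th c 1 := by
  set g : ℂ → ℂ := fun z => (f z + f (-z)) / 2 with hg
  have hfn : Differentiable ℂ (fun z => f (-z)) := hf.comp (by fun_prop)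
  have hgd : Differentiable ℂ g := (hf.add hfn).div_const 2
  have hge : ∀ z, g (-z) = g z := by intro z; rw [hg]; beta_reduce; rw [neg_neg]; ring
  have hgt : ExpType 1 g := by
    intro ε hε
    obtain ⟨C, hC⟩ := ht ε hε
    refine ⟨C, fun z => ?_⟩
    rw [hg]; beta_reduce
    have h1 := hC z
    have h2 := hC (-z)
    rw [norm_neg] at h2
    rw [norm_div]
    have h3 : ‖(2 : ℂ)‖ = 2 := by norm_num
    rw [h3, div_le_iff₀ (by norm_num)]
    have h4 := norm_add_le (f z) (f (-z))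
    linarith
  have hgb : ∀ x : ℝ, ‖g x‖ ≤ 1 := by
    intro x
    rw [hg]; beta_reduce
    have h1 := hb x
    have h2 := hb (-x)
    rw [Complex.ofReal_neg] at h2
    rw [norm_div]
    have h3 : ‖(2 : ℂ)‖ = 2 := by norm_num
    rw [h3, div_le_iff₀ (by norm_num)]
    have h4 := norm_add_le (f x) (f (-x))
    linarith
  have g0 : g 0 = f 0 := by rw [hg]; beta_reduce; rw [neg_zero]; ring
  have d1 : deriv g = fun z => (deriv f z - deriv f (-z)) / 2 := by
    funext z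
    have h1 : HasDerivAt (fun z => f (-z)) (-deriv f (-z)) z := by
      have := HasDerivAt.comp (h₂ := f) (h := fun z : ℂ => -z) z (hf _).hasDerivAt (hasDerivAt_neg z)
      rw [mul_neg, mul_one] at this; exact this
    have h2 := (((hf z).hasDerivAt.add h1).div_const 2).deriv
    rw [← sub_eq_add_neg] at h2
    exact h2
  have d2 : deriv (deriv g) 0 = deriv (deriv f) 0 := by
    rw [d1]
    have hf' := differentiable_deriv hf
    have h1 : HasDerivAt (fun z => deriv f (-z)) (-deriv (deriv f) (-0)) 0 := by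
      have := HasDerivAt.comp (h₂ := deriv f) (h := fun z : ℂ => -z) (0 : ℂ) (hf' _).hasDerivAt (hasDerivAt_neg 0)
      rw [mul_neg, mul_one] at this; exact this
    have h2 := (((hf' 0).hasDerivAt.sub h1).div_const 2).deriv
    rw [neg_zero] at h2
    have h3 : (fun z => (deriv f z - deriv f (-z)) / 2) = fun x => (deriv f - fun z => deriv f (-z)) x / 2 := rfl
    rw [h3, h2]; ring
  have hu := upper_even hc0 hc1 hgd hge hgt hgb
  rw [d2, g0] at hu
  have e : -deriv (deriv f) 0 + lam * f 0 = (-deriv (deriv f) 0 - kap c * f 0) + (lam + kap c) * f 0 := by ring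
  rw [e]
  refine (norm_add_le _ _).trans ?_
  rw [norm_mul]
  have h5 : ‖lam + kap c‖ * ‖f 0‖ ≤ ‖lam + kap c‖ * 1 := by
    apply mul_le_mul_of_nonneg_left _ (norm_nonneg _)
    have := hb 0
    simpa using this
  linarith

end Pool.Agent.Helper935.EX
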